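import Pool.Agent.Lib.MP_8b1d3b_lc.Barrier.Two

/-! Branching programs of polynomial size have almost maximal rank. -/

namespace Pool.Agent.Lib.MP_8b1d3b_lc.Barrier

open Matrix Finset

variable {K : Type} [Field K] {A B : Type} [Fintype A] [Fintype B] [DecidableEq A] [DecidableEq B]

theorem boost [Infinite K] {M : Type} [AddCommGroup M] [Module K M] (S : Set M) (h0 : 0 ∈ S)
    (hS : ∀ s ∈ S, ∀ a : K, a • s ∈ S) (F : M) (c k : ℕ) (hc : 0 < c)
    (h : ∀ L : M →ₗ[K] Matrix A B K, ∃ s ∈ S, (L F).rank ≤ c * (L s).rank)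
    (L : M →ₗ[K] Matrix A B K) :
    ∃ g : Fin (k * c) → M, (∀ l, g l ∈ S) ∧
      k * (L F).rank ≤ (2 * k + 1) * (L (∑ l, g l)).rank := by
  have key : ∀ m : ℕ, ∃ g : Fin m → M, (∀ l, g l ∈ S) ∧
      (k * (L F).rank ≤ (2 * k + 1) * (L (∑ l, g l)).rank ∨
        m * (L F).rank ≤ (2 * k + 1) * c * (L (∑ l, g l)).rank) := fun m => by
    induction m with
    | zero => exact ⟨fun _ => 0, fun _ => h0, Or.inr (by simp)⟩
    | succ m ih =>
      obtain ⟨g, hg, h1⟩ := ih
      by_cases h2 : k * (L F).rank ≤ (2 * k + 1) * (L (∑ l, g l)).rank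
      · exact ⟨Fin.cons 0 g, fun l => Fin.cases h0 hg l, Or.inl (by simpa using h2)⟩
      obtain ⟨_, _, P, Q, -, -, -, hP, hQ, h3, -⟩ := core (L (∑ l, g l))
      obtain ⟨s, hs, h4⟩ := h (cmp P Q L)
      obtain ⟨a, h5⟩ := h3 (L s)
      refine ⟨Fin.cons (a • s) g, fun l => Fin.cases (hS s hs a) hg l, Or.inr ?_⟩
      rw [Fin.sum_cons, map_add, map_smul, add_comm (a • L s)]
      have h6 := rank_le_cmp P Q (L F)
      have h7 := h1.resolve_left h2
      rw [cmp_apply, cmp_apply] at h4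
      have h8 : (L F).rank ≤ c * (Q * L s * P).rank + 2 * (L (∑ l, g l)).rank := by omega
      have h9 := Nat.mul_le_mul_left (2 * k + 1) h8
      have h10 := Nat.mul_le_mul_left ((2 * k + 1) * c) h5
      nlinarith
  obtain ⟨g, hg, h1 | h1⟩ := key (k * c)
  · exact ⟨g, hg, h1⟩
  · exact ⟨g, hg, Nat.le_of_mul_le_mul_left (c := c) (by nlinarith) hc⟩

variable {R : Type} [CommRing R] [Algebra K R] (V : Submodule K R)

/-- A product of `n` matrices with entries in `V`. -/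
def Pw {W : Type} [Fintype W] [DecidableEq W] : ℕ → Matrix W W R → Prop
  | 0, M => M = 1
  | n + 1, M => ∃ N M', (∀ a b, N a b ∈ V) ∧ Pw n M' ∧ M = N * M'

variable {V} {W W' : Type} [Fintype W] [DecidableEq W] [Fintype W'] [DecidableEq W']

theorem Pw.mul : ∀ {n n' : ℕ} {M M' : Matrix W W R}, Pw V n M → Pw V n' M' → Pw V (n + n') (M * M')
  | 0, _, M, _, h, h' => by rw [show M = 1 from h]; simpa using h'
  | n + 1, n', _, _, ⟨N, M₁, h1, h2, h3⟩, h' => by
    rw [show n + 1 + n' = n + n' + 1 by omega]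
    exact ⟨N, _, h1, h2.mul h', by rw [h3, mul_assoc]⟩

theorem Pw.single {N : Matrix W W R} (h : ∀ a b, N a b ∈ V) : Pw V 1 N :=
  ⟨N, 1, h, rfl, (mul_one N).symm⟩

theorem Pw.one (h1 : (1 : R) ∈ V) : ∀ n, Pw V n (1 : Matrix W W R)
  | 0 => rfl
  | n + 1 => ⟨1, 1, fun a b => by rw [one_apply]; split_ifs; exacts [h1, V.zero_mem], Pw.one h1 n,
      (mul_one _).symm⟩

theorem Pw.block : ∀ {n : ℕ} {M : Matrix W W R} {M' : Matrix W' W' R}, Pw V n M → Pw V n M' →
    Pw V n (fromBlocks M 0 0 M')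
  | 0, M, M', h, h' => by rw [show M = 1 from h, show M' = 1 from h']; exact fromBlocks_one
  | _ + 1, _, _, ⟨N, M₁, h1, h2, h3⟩, ⟨N', M₁', h1', h2', h3'⟩ =>
    ⟨fromBlocks N 0 0 N', _, by rintro (a | a) (b | b) <;> simp [h1, h1'], h2.block h2', by
      rw [h3, h3', fromBlocks_multiply]; simp⟩

theorem Pw.map (φ : R →ₐ[K] R) (hφ : ∀ x ∈ V, φ x ∈ V) :
    ∀ {n : ℕ} {M : Matrix W W R}, Pw V n M → Pw V n (M.map φ)
  | 0, M, h => by rw [show M = 1 from h]; exact Matrix.map_one _ (map_zero φ) (map_one φ)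
  | _ + 1, _, ⟨N, M₁, h1, h2, h3⟩ =>
    ⟨N.map φ, _, fun a b => hφ _ (h1 a b), h2.map φ hφ, by rw [h3, Matrix.map_mul]⟩

theorem Pw.list (e : W' ≃ W) : ∀ {n : ℕ} {M : Matrix W W R}, Pw V n M →
    ∃ l : List (Matrix W' W' R), l.length = n ∧ (∀ N ∈ l, ∀ a b, N a b ∈ V) ∧
      l.prod = M.submatrix e e
  | 0, M, h => ⟨[], rfl, by simp, by rw [show M = 1 from h]; simp⟩
  | _ + 1, _, ⟨N, M₁, h1, h2, h3⟩ => by
    obtain ⟨l, h4, h5, h6⟩ := h2.list e
    refine ⟨N.submatrix e e :: l, by simp [h4], ?_, by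
      rw [List.prod_cons, h6, h3, submatrix_mul_equiv]⟩
    intro N' hN'
    rcases List.mem_cons.1 hN' with rfl | h
    exacts [fun a b => h1 _ _, h5 N' h]

variable (V) in
/-- A branching program with `n` layers of width at most `w`. -/
def Abp {I J : Type} (n w : ℕ) (F : Matrix I J R) : Prop :=
  ∃ (W : Type) (_ : Fintype W) (_ : DecidableEq W) (U : Matrix I W K) (M : Matrix W W R)
    (U' : Matrix W J K), Fintype.card W ≤ w ∧ Pw V n M ∧
      F = U.map (algebraMap K R) * M * U'.map (algebraMap K R)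

variable {I J H : Type} {n n' w w' : ℕ}

theorem Abp.mono {F : Matrix I J R} (h : Abp V n w F) (hw : w ≤ w') : Abp V n w' F := by
  obtain ⟨W, _, _, U, M, U', h1, h2⟩ := h
  exact ⟨W, _, _, U, M, U', h1.trans hw, h2⟩

theorem Abp.zero (h1 : (1 : R) ∈ V) : Abp V n w (0 : Matrix I J R) :=
  ⟨Empty, inferInstance, inferInstance, 0, 1, 0, by simp, Pw.one h1 n, by ext; simp [mul_apply]⟩

theorem Abp.smul {F : Matrix I J R} (h : Abp V n w F) (a : K) : Abp V n w (a • F) := by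
  obtain ⟨W, _, _, U, M, U', h1, h2, rfl⟩ := h
  refine ⟨W, _, _, a • U, M, U', h1, h2, ?_⟩
  rw [← Matrix.smul_mul, ← Matrix.smul_mul]
  congr 2
  ext; simp [Algebra.smul_def]

theorem Abp.add {F G : Matrix I J R} (h : Abp V n w F) (h' : Abp V n w' G) :
    Abp V n (w + w') (F + G) := by
  obtain ⟨W, _, _, U, M, U', h1, h2, rfl⟩ := h
  obtain ⟨W₁, _, _, U₁, M₁, U₁', h1', h2', rfl⟩ := h'
  refine ⟨W ⊕ W₁, _, _, fromCols U U₁, _, fromRows U' U₁', by simp; omega, h2.block h2', ?_⟩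
  rw [fromCols_map, fromRows_map, fromCols_mul_fromBlocks, fromCols_mul_fromRows]
  simp

theorem Abp.sum (h1 : (1 : R) ∈ V) : ∀ {m : ℕ} (g : Fin m → Matrix I J R),
    (∀ l, Abp V n w (g l)) → Abp V n (m * w) (∑ l, g l)
  | 0, _, _ => by simpa using Abp.zero h1
  | m + 1, g, h => by
    rw [Fin.sum_univ_castSucc, Nat.succ_mul]
    exact (Abp.sum h1 _ fun l => h _).add (h _)

theorem const_mem (h1 : (1 : R) ∈ V) (c : K) : algebraMap K R c ∈ V := by
  rw [Algebra.algebraMap_eq_smul_one]; exact V.smul_mem c h1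

theorem Abp.mul [Fintype H] (h1 : (1 : R) ∈ V) {F : Matrix I H R} {G : Matrix H J R}
    (h : Abp V n w F) (h' : Abp V n' w' G) : Abp V (n + 1 + n') (w + w') (F * G) := by
  obtain ⟨W, _, _, U, M, U', h2, h3, rfl⟩ := h
  obtain ⟨W₁, _, _, U₁, M₁, U₁', h2', h3', rfl⟩ := h'
  refine ⟨W ⊕ W₁, _, _, fromCols U 0, _, fromRows 0 U₁', by simp; omega,
    ((h3.block (Pw.one h1 n)).mul (Pw.single (N := fromBlocks 0 ((U' * U₁).map (algebraMap K R)) 0 0)
      (by rintro (a | a) (b | b) <;> simp [const_mem h1, -Matrix.map_mul]))).mul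
      ((Pw.one h1 n').block h3'), ?_⟩
  rw [fromCols_map, fromRows_map, fromBlocks_multiply, fromBlocks_multiply,
    fromCols_mul_fromBlocks, fromCols_mul_fromRows]
  simp [Matrix.mul_assoc]

theorem Abp.map {F : Matrix I J R} (h : Abp V n w F) (φ : R →ₐ[K] R) (hφ : ∀ x ∈ V, φ x ∈ V) :
    Abp V n w (F.map φ) := by
  obtain ⟨W, _, _, U, M, U', h1, h2, rfl⟩ := h
  refine ⟨W, _, _, U, _, U', h1, h2.map φ hφ, ?_⟩
  have e1 : (U.map (algebraMap K R)).map φ = U.map (algebraMap K R) := by ext; simp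
  have e2 : (U'.map (algebraMap K R)).map φ = U'.map (algebraMap K R) := by ext; simp
  rw [Matrix.map_mul, Matrix.map_mul, e1, e2]

theorem Abp.base [Fintype I] [Fintype J] {F : Matrix I J R} (h : ∀ i j, F i j ∈ V) :
    Abp V 1 (Fintype.card I + Fintype.card J) F := by
  classical
  refine ⟨I ⊕ J, _, _, fromCols 1 0, fromBlocks 0 F 0 0, fromRows 0 1, by simp,
    Pw.single (by rintro (a | a) (b | b) <;> simp [h]), ?_⟩
  rw [fromCols_map, fromRows_map, fromCols_mul_fromBlocks, fromCols_mul_fromRows]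
  simp

theorem Abp.trace (h1 : (1 : R) ∈ V) {F : Matrix Unit Unit R} (h : Abp V n w F) :
    ∃ (w' : ℕ) (l : List (Matrix (Fin w') (Fin w') R)), w' ≤ w ∧ l.length = n + 1 ∧
      (∀ N ∈ l, ∀ a b, N a b ∈ V) ∧ l.prod.trace = F () () := by
  obtain ⟨W, _, _, U, M, U', h2, h3, rfl⟩ := h
  obtain ⟨l, h4, h5, h6⟩ := (h3.mul (Pw.single (N := (U' * U).map (algebraMap K R))
    fun a b => const_mem h1 _)).list (Fintype.equivFin W).symm
  refine ⟨_, l, h2, h4, h5, ?_⟩
  have h7 : ∀ N : Matrix W W R, (N.submatrix (Fintype.equivFin W).symm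
      (Fintype.equivFin W).symm).trace = N.trace := fun N =>
    (Fintype.equivFin W).symm.sum_comp fun a => N a a
  rw [h6, h7, Matrix.map_mul, ← Matrix.mul_assoc, trace_mul_comm, ← Matrix.mul_assoc]
  simp [Matrix.trace]

theorem recursion [Infinite K] {S : Type} [Fintype S] (y : S → R)
    (h1 : (1 : R) ∈ Submodule.span K (Set.range y)) (j : ℕ) :
    ∀ (m : ℕ) (I J : Type) [Fintype I] [Fintype J], Fintype.card I ≤ m → Fintype.card J ≤ m →
      ∀ (F : Matrix I J R), (∀ a b, F a b ∈ Submodule.span K (Set.range y) ^ 2 ^ j) →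
      ∀ L : Matrix I J R →ₗ[K] Matrix A B K, ∃ G : Matrix I J R,
        ((∀ a b, G a b ∈ Submodule.span K (Set.range y) ^ 2 ^ j) ∧
          Abp (Submodule.span K (Set.range y)) (2 ^ (j + 1) - 1)
            (2 * 216 ^ j * (m + Fintype.card S + 1)) G) ∧ (L F).rank ≤ 3 * (L G).rank := by
  induction j with
  | zero =>
    intro m I J _ _ hI hJ F hF L
    exact ⟨F, ⟨hF, (Abp.base (by simpa using hF)).mono (by omega)⟩, by omega⟩
  | succ j ih =>
    intro m I J _ _ hI hJ F hF L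
    set V := Submodule.span K (Set.range y) with hV
    set c := 2 * (1 + Fintype.card S + m + m) with hc
    rw [pow_succ 2 j, mul_two] at hF ⊢
    have step : ∀ L : Matrix I J R →ₗ[K] Matrix A B K, ∃ G ∈ {G : Matrix I J R |
        (∀ a b, G a b ∈ V ^ (2 ^ j + 2 ^ j)) ∧ Abp V (2 ^ (j + 1 + 1) - 1)
          (8 * 216 ^ j * (m + Fintype.card S + 1) + 8 * 216 ^ j * (m + Fintype.card S + 1)) G},
        (L F).rank ≤ 27 * (L G).rank := fun L => by
      obtain ⟨g, hg, h2⟩ := boost {s : Matrix I J R | ∃ u v, (∀ i, u i ∈ V ^ 2 ^ j) ∧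
          (∀ i, v i ∈ V ^ 2 ^ j) ∧ s = vecMulVec u v}
        ⟨0, 0, fun _ => Submodule.zero_mem _, fun _ => Submodule.zero_mem _, by simp⟩
        (by
          rintro _ ⟨u, v, hu, hv, rfl⟩ a
          exact ⟨a • u, v, fun i => Submodule.smul_mem _ _ (hu i), hv, (smul_vecMulVec ..).symm⟩)
        F c 1 (by omega) (fun L => by
          obtain ⟨s, hs, hmax⟩ := exists_max {s : Matrix I J R | ∃ u v, (∀ i, u i ∈ V ^ 2 ^ j) ∧
            (∀ i, v i ∈ V ^ 2 ^ j) ∧ s = vecMulVec u v} (fun s => (L s).rank) _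
            (fun a _ => rank_le_card_width _) (a₀ := 0)
            ⟨0, 0, fun _ => Submodule.zero_mem _, fun _ => Submodule.zero_mem _, by simp⟩
          refine ⟨s, hs, (two y _ L _ (fun u v hu hv => hmax _ ⟨u, v, hu, hv, rfl⟩) F hF).trans ?_⟩
          exact Nat.mul_le_mul_right _ (by omega)) L
      choose u v hu hv huv using hg
      have h3 : ∑ l, g l = (of fun i l => u l i) * (of fun l i => v l i) := by
        ext a b; simp [huv, mul_apply, Matrix.sum_apply, vecMulVec_apply]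
      obtain ⟨a', ⟨ha1, ha2⟩, ha3⟩ := ih c I (Fin (1 * c)) (by omega) (by simp)
        (of fun i l => u l i) (fun i l => hu l i) (L ∘ₗ mulRightLinearMap I K (of fun l i => v l i))
      obtain ⟨b', ⟨hb1, hb2⟩, hb3⟩ := ih c (Fin (1 * c)) J (by simp) (by omega)
        (of fun l i => v l i) (fun l i => hv l i) (L ∘ₗ mulLeftLinearMap J K a')
      simp only [LinearMap.comp_apply, mulRightLinearMap_apply, mulLeftLinearMap_apply] at ha3 hb3
      rw [h3] at h2
      refine ⟨a' * b', ⟨fun a b => ?_, ?_⟩, by omega⟩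
      · rw [mul_apply, pow_add]
        exact Submodule.sum_mem _ fun l _ => Submodule.mul_mem_mul (ha1 _ _) (hb1 _ _)
      · have h4 : 2 * 216 ^ j * (c + Fintype.card S + 1) ≤ 8 * 216 ^ j * (m + Fintype.card S + 1) := by
          have := Nat.mul_le_mul_left (2 * 216 ^ j)
            (show c + Fintype.card S + 1 ≤ 4 * (m + Fintype.card S + 1) by omega)
          linarith
        have h5 := (ha2.mono h4).mul h1 (hb2.mono h4)
        have h6 : 0 < 2 ^ (j + 1) := by positivity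
        rwa [show 2 ^ (j + 1) - 1 + 1 + (2 ^ (j + 1) - 1) = 2 ^ (j + 1 + 1) - 1 by omega] at h5
    obtain ⟨g, hg, h2⟩ := boost _ (by exact ⟨fun _ _ => Submodule.zero_mem _, Abp.zero h1⟩)
      (fun s hs a => by exact ⟨fun _ _ => Submodule.smul_mem _ _ (hs.1 _ _), hs.2.smul a⟩) F 27 1
      (by norm_num) step L
    refine ⟨∑ l, g l, ⟨fun a b => ?_, (Abp.sum h1 g fun l => (hg l).2).mono (le_of_eq (by ring))⟩,
      by omega⟩
    rw [Matrix.sum_apply]
    exact Submodule.sum_mem _ fun l _ => (hg l).1 a b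

end Pool.Agent.Lib.MP_8b1d3b_lc.Barrier
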