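import Pool.Agent.Lib.MP_8b1d3b_lc.Barrier.Poly

/-! From linear maps and a constant ratio to polynomial maps and a ratio close to one. -/

namespace Pool.Agent.Lib.MP_8b1d3b_lc.Barrier

open Matrix Polynomial

variable {K : Type} [Field K] {A B τ M : Type} [Fintype A] [Fintype B] [DecidableEq A]
  [DecidableEq B] [AddCommGroup M] [Module K M] (c : M →ₗ[K] τ → K)

/-- The value of a matrix of polynomials at the coordinates of `f`. -/
noncomputable def pv (P : Matrix A B (MvPolynomial τ K)) (f : M) : Matrix A B K :=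
  P.map (MvPolynomial.eval (c f))

/-- Restriction to the line through `g` with direction `h`. -/
noncomputable def line (g h : M) : MvPolynomial τ K →ₐ[K] K[X] :=
  MvPolynomial.aeval fun μ => C (c g μ) + X * C (c h μ)

theorem eval_line (g h : M) (s : K) (p : MvPolynomial τ K) :
    (line c g h p).eval s = MvPolynomial.eval (c (g + s • h)) p := by
  induction p using MvPolynomial.induction_on with
  | C a => simp [line]
  | add p q hp hq => simp [hp, hq]
  | mul_X p μ hp => rw [map_mul, map_mul, eval_mul, hp]; congr 1; simp [line]; ring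

omit [Fintype A] [Fintype B] [DecidableEq A] [DecidableEq B] in
theorem ev_line (P : Matrix A B (MvPolynomial τ K)) (g h : M) (s : K) :
    ev s (P.map (line c g h)) = pv c P (g + s • h) := by
  ext a b; exact eval_line c g h s _

/-- The derivative in the direction `h`. -/
noncomputable def der (h : M) : Derivation K (MvPolynomial τ K) (MvPolynomial τ K) :=
  MvPolynomial.mkDerivation K fun μ => MvPolynomial.C (c h μ)

theorem der_X (h : M) (μ : τ) : der c h (MvPolynomial.X μ) = MvPolynomial.C (c h μ) :=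
  MvPolynomial.mkDerivation_X _ _ _

theorem coeff_line (g h : M) (p : MvPolynomial τ K) :
    (line c g h p).coeff 1 = MvPolynomial.eval (c g) (der c h p) := by
  induction p using MvPolynomial.induction_on with
  | C a => simp [line]
  | add p q hp hq => simp [hp, hq]
  | mul_X p μ hp =>
    have h0 : (line c g h p).coeff 0 = MvPolynomial.eval (c g) p := by
      rw [coeff_zero_eq_eval_zero, eval_line]; simp
    have h1 : line c g h (MvPolynomial.X μ) = C (c g μ) + X * C (c h μ) := by simp [line]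
    rw [map_mul, h1, mul_add, ← mul_assoc, coeff_add, coeff_mul_C, coeff_mul_C,
      show (1 : ℕ) = 0 + 1 from rfl, coeff_mul_X, h0, zero_add, hp, Derivation.leibniz, der_X]
    simp
    ring

/-- The derivative at `f` as a linear map in the direction. -/
noncomputable def derL (Φ : Matrix A B (MvPolynomial τ K)) (f : M) : M →ₗ[K] Matrix A B K where
  toFun h := pv c (Φ.map (der c h)) f
  map_add' h h' := by
    have : der c (h + h') = der c h + der c h' :=
      MvPolynomial.derivation_ext fun μ => by simp [der_X]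
    ext; simp [pv, this]
  map_smul' a h := by
    have : der c (a • h) = a • der c h :=
      MvPolynomial.derivation_ext fun μ => by simp [der_X, MvPolynomial.smul_eq_C_mul]
    ext; simp [pv, this]

theorem der_one (h : M) : ∀ m ∈ MvPolynomial.homogeneousSubmodule τ K 1,
    der c h m = MvPolynomial.C (MvPolynomial.eval (c h) m) := fun m hm => by
  rw [MvPolynomial.homogeneousSubmodule_one_eq_span_X] at hm
  induction hm using Submodule.span_induction with
  | mem x hx => obtain ⟨μ, rfl⟩ := hx; simp [der_X]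
  | zero => simp
  | add x y _ _ hx hy => simp [hx, hy]
  | smul a x _ hx => rw [Derivation.map_smul, hx]; simp [MvPolynomial.smul_eq_C_mul]

theorem der_hom (h : M) {w : ℕ} {p : MvPolynomial τ K}
    (hp : p ∈ MvPolynomial.homogeneousSubmodule τ K 1 ^ w) :
    der c h p ∈ MvPolynomial.homogeneousSubmodule τ K 1 ^ (w - 1) ∧
      (∀ y ∈ MvPolynomial.homogeneousSubmodule τ K 1,
        y * der c h p ∈ MvPolynomial.homogeneousSubmodule τ K 1 ^ w) ∧
      MvPolynomial.eval (c h) (der c h p) = w * MvPolynomial.eval (c h) p := by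
  induction hp using Submodule.pow_induction_on_left' with
  | algebraMap r => simp
  | add x y i _ _ hx hy =>
    rw [map_add]
    exact ⟨add_mem hx.1 hy.1, fun z hz => by rw [mul_add]; exact add_mem (hx.2.1 z hz) (hy.2.1 z hz),
      by rw [map_add, map_add, hx.2.2, hy.2.2, mul_add]⟩
  | mem_mul m hm i x hx ih =>
    have h1 : der c h (m * x) ∈ MvPolynomial.homogeneousSubmodule τ K 1 ^ i := by
      rw [Derivation.leibniz, der_one c h m hm, smul_eq_mul, smul_eq_mul, mul_comm x,
        ← MvPolynomial.smul_eq_C_mul]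
      exact add_mem (ih.2.1 m hm) (Submodule.smul_mem _ _ hx)
    refine ⟨h1, fun y hy => by rw [pow_succ']; exact Submodule.mul_mem_mul hy h1, ?_⟩
    rw [Derivation.leibniz, der_one c h m hm]
    simp [ih.2.2]
    ring

variable (K τ) in
/-- Polynomials whose coefficient of degree `w` is a form of degree `w`. -/
def graded : Subalgebra K (MvPolynomial τ K)[X] where
  carrier := {p | ∀ w, p.coeff w ∈ MvPolynomial.homogeneousSubmodule τ K 1 ^ w}
  mul_mem' {p q} hp hq w := by
    rw [coeff_mul]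
    refine Submodule.sum_mem _ fun x hx => ?_
    rw [← Finset.HasAntidiagonal.mem_antidiagonal.1 hx, pow_add]
    exact Submodule.mul_mem_mul (hp _) (hq _)
  add_mem' {p q} hp hq w := by rw [coeff_add]; exact add_mem (hp w) (hq w)
  algebraMap_mem' r w := by
    rw [Polynomial.algebraMap_apply, coeff_C]
    split_ifs with h
    · rw [h, pow_zero]; exact Submodule.algebraMap_mem r
    · exact zero_mem _

theorem XX_mem (μ : τ) : (X * C (MvPolynomial.X μ) : (MvPolynomial τ K)[X]) ∈ graded K τ := fun w => by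
  rw [mul_comm, coeff_C_mul_X]
  split_ifs with h
  · rw [h, pow_one]; exact MvPolynomial.isHomogeneous_X _ _
  · exact zero_mem _

omit [DecidableEq A] [DecidableEq B] in
theorem exists_univ {ι : Type} [Fintype ι] [DecidableEq ι] (P : Matrix A B (MvPolynomial τ K))
    (g : M) (Z₁ : Matrix B ι K) (Z₂ : Matrix ι A K) (w : ℕ) :
    ∃ Φ : Matrix A B (MvPolynomial τ K),
      (∀ a b, Φ a b ∈ MvPolynomial.homogeneousSubmodule τ K 1 ^ w) ∧
      ∀ h, pv c Φ h = cf w (sharp (P.map (line c g h)) (cst Z₁) (cst Z₂)) := by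
  let u : MvPolynomial τ K →ₐ[K] graded K τ :=
    MvPolynomial.aeval fun μ => algebraMap K _ (c g μ) + ⟨_, XX_mem μ⟩
  let S := sharp (P.map u) (Z₁.map (algebraMap K _)) (Z₂.map (algebraMap K _))
  refine ⟨S.map fun p => p.1.coeff w, fun a b => (S a b).2 w, fun h => ?_⟩
  let ψ : graded K τ →+* K[X] :=
    (mapRingHom (MvPolynomial.eval (c h))).comp (graded K τ).val.toRingHom
  have h1 : ∀ a : K, ψ (algebraMap K _ a) = C a := fun a => by
    simp [ψ, Polynomial.algebraMap_apply]
  have h2 : ∀ p, ψ (u p) = line c g h p := fun p => by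
    induction p using MvPolynomial.induction_on with
    | C a => rw [← MvPolynomial.algebraMap_eq, u.commutes, h1]; simp [line]
    | add p q hp hq => simp only [map_add, hp, hq]
    | mul_X p μ hp =>
      rw [map_mul, map_mul, map_mul, hp]
      congr 1
      simp only [u, line, MvPolynomial.aeval_X, map_add, h1]
      simp [ψ]
  have h3 : S.map ψ = sharp (P.map (line c g h)) (cst Z₁) (cst Z₂) := by
    rw [sharp_map]
    congr 1 <;> ext1 a b
    exacts [h2 _, h1 _, h1 _]
  rw [← h3]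
  ext a b
  simp [pv, cf, ψ]

variable [CharZero K] (T : Submodule K M) (G : ℕ → Set M) (W : ℕ) (h0 : ∀ w, 0 ∈ G w)
  (hs : ∀ w, ∀ x ∈ G w, ∀ a : K, a • x ∈ G w)
  (ha : ∀ w w', ∀ x ∈ G w, ∀ y ∈ G w', x + y ∈ G (w + w'))
  (H : ∀ L : M →ₗ[K] Matrix A B K, ∀ f ∈ T, ∃ g ∈ G W, (L f).rank ≤ 3 * (L g).rank)

include h0 hs ha H

theorem polar (w : ℕ) : ∀ Φ : Matrix A B (MvPolynomial τ K),
    (∀ a b, Φ a b ∈ MvPolynomial.homogeneousSubmodule τ K 1 ^ w) → ∀ f ∈ T,
      ∃ g ∈ G (w * W), (pv c Φ f).rank ≤ 6 ^ w * (pv c Φ g).rank := by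
  induction w with
  | zero =>
    intro Φ hΦ f _
    refine ⟨0, h0 _, le_of_eq ?_⟩
    rw [pow_zero, one_mul]
    congr 1
    ext a b
    obtain ⟨r, hr⟩ := Submodule.mem_one.1 (pow_zero (MvPolynomial.homogeneousSubmodule τ K 1) ▸ hΦ a b)
    simp [pv, ← hr]
  | succ w ih =>
    intro Φ hΦ f hf
    obtain ⟨g₁, hg₁, h1⟩ := H (derL c Φ f) f hf
    obtain ⟨g₂, hg₂, h2⟩ := ih (Φ.map (der c g₁)) (fun a b => (der_hom c g₁ (hΦ a b)).1) f hf
    obtain ⟨s, -, h3⟩ := exists_max Set.univ (fun s => (ev s (Φ.map (line c g₂ g₁))).rank) _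
      (fun _ _ => rank_le_card_width _) (Set.mem_univ 0)
    have h4 := cf_rank _ 1 (Φ.map (line c g₂ g₁)) 1 one_ne_zero fun t _ => h3 t trivial
    rw [ev_line, show cf 1 (Φ.map (line c g₂ g₁)) = pv c (Φ.map (der c g₁)) g₂ by
      ext a b; exact coeff_line c g₂ g₁ _] at h4
    have h5 : derL c Φ f f = ((w + 1 : ℕ) : K) • pv c Φ f := by
      ext a b; exact (der_hom c f (hΦ a b)).2.2
    rw [h5, rank_smul_of_mem_nonZeroDivisors _
      (mem_nonZeroDivisors_of_ne_zero (Nat.cast_ne_zero.2 w.succ_ne_zero))] at h1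
    refine ⟨g₂ + s • g₁, Nat.succ_mul w W ▸ ha _ _ _ hg₂ _ (hs _ _ hg₁ s), h1.trans ?_⟩
    calc 3 * (pv c (Φ.map (der c g₁)) f).rank
        ≤ 3 * (6 ^ w * ((1 + 1) * (pv c Φ (g₂ + s • g₁)).rank)) := by
          gcongr; exact h2.trans (by gcongr)
      _ = _ := by ring

theorem step (P : Matrix A B (MvPolynomial τ K)) (m k : ℕ) (hm : ∀ a b, (P a b).totalDegree ≤ m)
    {f g : M} (hf : f ∈ T) (hg : g ∈ T) (hr : (k + 1) * (pv c P g).rank < k * (pv c P f).rank)
    (j : ℕ) (hj : j = (2 * k + 1) * m + 1) :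
    ∃ g' ∈ G (j * W), ∃ ρ, (pv c P (g + g')).rank = (pv c P g).rank + ρ ∧
      (pv c P f).rank ≤ 2 * (k + 1) * j ^ 2 * 6 ^ j * ρ := by
  obtain ⟨Z₁, Z₂, h1, -⟩ := exists_gi (pv c P g)
  have h2 : ∀ h, Z₂ * ev 0 (P.map (line c g h)) * Z₁ = 1 := fun h => by
    rw [ev_line, zero_smul, add_zero, h1]
  obtain ⟨w, hw, h3⟩ := exists_max {w | w < j}
    (fun w => (cf w (sharp (P.map (line c g (f - g))) (cst Z₁) (cst Z₂))).rank) _
    (fun _ _ => rank_le_card_width _) (a₀ := 0) (by simp [hj])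
  obtain ⟨ρ', h4, h5⟩ := deficit (P.map (line c g (f - g))) m (fun a b => by
    refine (MvPolynomial.aeval_natDegree_le (n := 1) _ (hm a b) _ fun μ => ?_).trans (by simp)
    compute_degree) Z₁ Z₂ (h2 _) _ j h3 1
  rw [ev_line, one_smul, add_sub_cancel] at h4
  obtain ⟨Φ, hΦ, h6⟩ := exists_univ c P g Z₁ Z₂ w
  obtain ⟨g₁, hg₁, h7⟩ := polar c T G W h0 hs ha H w Φ hΦ (f - g) (T.sub_mem hf hg)
  obtain ⟨s, ρ, h8, h9⟩ := gain (P.map (line c g g₁)) Z₁ Z₂ (h2 _)
  have hw' : w < j := hw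
  obtain ⟨e, he⟩ := Nat.exists_eq_add_of_le hw'.le
  have h10 := ha _ _ _ (hs _ _ hg₁ s) _ (h0 (e * W))
  rw [add_zero, ← add_mul, ← he] at h10
  rw [ev_line, Fintype.card_fin] at h8
  refine ⟨_, h10, ρ, h8, ?_⟩
  have h11 := h9 w
  rw [← h6] at h4 h11
  rw [Fintype.card_fin] at h4 h5
  generalize (pv c P g).rank = r at h4 h5 hr
  generalize (pv c P f).rank = R at h4 hr
  generalize (pv c Φ (f - g)).rank = δ at h4 h7
  have e1 : 2 * k * ρ' ≤ r := by
    rcases Nat.eq_zero_or_pos m with rfl | hm0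
    · have : ρ' = 0 := by simpa [hj] using h5
      simp [this]
    · exact Nat.le_of_mul_le_mul_left (by rw [hj] at h5; nlinarith) hm0
  have hk : 0 < k := Nat.pos_of_ne_zero fun e => by simp [e] at hr
  have e2 : R ≤ 2 * (k + 1) * (j * δ) := by
    have e3 : 2 * k * R ≤ (2 * k + 1) * r + 2 * k * (j * δ) := by nlinarith
    have e4 := Nat.mul_le_mul_left (k + 1) e3
    have e5 := Nat.mul_le_mul_left (2 * k + 1) hr.le
    exact Nat.le_of_mul_le_mul_left (by nlinarith) hk
  calc R ≤ 2 * (k + 1) * (j * (6 ^ j * (j * ρ))) := by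
        refine e2.trans ?_
        gcongr
        refine h7.trans ?_
        gcongr
        · norm_num
        · exact h11.trans (by gcongr; omega)
    _ = _ := by ring

theorem lift (hT : ∀ w, ∀ x ∈ G w, x ∈ T) (P : Matrix A B (MvPolynomial τ K)) (m k : ℕ)
    (hm : ∀ a b, (P a b).totalDegree ≤ m) {f : M} (hf : f ∈ T) :
    ∃ g ∈ G (2 * (k + 1) * 48 ^ ((2 * k + 1) * m + 1) * W),
      k * (pv c P f).rank ≤ (k + 1) * (pv c P g).rank := by
  obtain ⟨j, hj⟩ : ∃ j, j = (2 * k + 1) * m + 1 := ⟨_, rfl⟩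
  obtain ⟨γ, hγ⟩ : ∃ γ, γ = 2 * (k + 1) * j ^ 2 * 6 ^ j := ⟨_, rfl⟩
  have key : ∀ n, ∃ g ∈ G (n * (j * W)), k * (pv c P f).rank ≤ (k + 1) * (pv c P g).rank ∨
      n * (pv c P f).rank ≤ γ * (pv c P g).rank := fun n => by
    induction n with
    | zero => exact ⟨0, h0 _, Or.inr (by simp)⟩
    | succ n ih =>
      obtain ⟨g, hg, h1⟩ := ih
      rw [Nat.succ_mul]
      by_cases h2 : k * (pv c P f).rank ≤ (k + 1) * (pv c P g).rank
      · exact ⟨g + 0, ha _ _ _ hg _ (h0 _), Or.inl (by rwa [add_zero])⟩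
      obtain ⟨g', hg', ρ, h3, h4⟩ := step c T G W h0 hs ha H P m k hm hf (hT _ _ hg)
        (not_le.1 h2) j hj
      have h5 := h1.resolve_left h2
      rw [← hγ] at h4
      exact ⟨g + g', ha _ _ _ hg _ hg', Or.inr (by rw [h3]; nlinarith)⟩
  obtain ⟨g, hg, h1⟩ := key γ
  have h2 : γ * (j * W) ≤ 2 * (k + 1) * 48 ^ j * W :=
    calc γ * (j * W) = 2 * (k + 1) * (j ^ 3 * 6 ^ j) * W := by rw [hγ]; ring
      _ ≤ 2 * (k + 1) * ((2 ^ j) ^ 3 * 6 ^ j) * W := by gcongr; exact Nat.lt_two_pow_self.le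
      _ = _ := by rw [← pow_mul, mul_comm j 3, pow_mul, ← mul_pow]; norm_num
  obtain ⟨e, he⟩ := Nat.exists_eq_add_of_le h2
  have h3 := ha _ _ _ hg _ (h0 e)
  rw [add_zero, ← he, hj] at h3
  refine ⟨g, h3, h1.elim id fun h => ?_⟩
  have := Nat.le_of_mul_le_mul_left h (by rw [hγ, hj]; positivity)
  nlinarith

end Pool.Agent.Lib.MP_8b1d3b_lc.Barrier
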