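import Pool.Agent.Lib.MP_8b1d3b_lc.Barrier.Abp
import Pool.Agent.Lib.MP_8b1d3b_lc.Barrier.Lift

/-! One branching program for a finite family of maps. -/

namespace Pool.Agent.Lib.MP_8b1d3b_lc.Barrier

open Matrix Polynomial

variable {K : Type} [Field K] {R : Type} [CommRing R] [Algebra K R] {V : Submodule K R}
  {I J H W W' : Type} [Fintype W] [DecidableEq W] [Fintype W'] [DecidableEq W'] {n w : ℕ}

/-- A polynomial curve of matrices. -/
def Curve (γ : K → Matrix I J R) : Prop :=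
  ∃ Γ : Matrix I J R[X], ∀ s, Γ.map (evalRingHom (algebraMap K R s)) = γ s

theorem Curve.mul [Fintype H] {γ : K → Matrix I H R} {γ' : K → Matrix H J R} (h : Curve γ)
    (h' : Curve γ') : Curve fun s => γ s * γ' s := by
  obtain ⟨Γ, h⟩ := h
  obtain ⟨Γ', h'⟩ := h'
  exact ⟨Γ * Γ', fun s => by rw [Matrix.map_mul, h, h']⟩

theorem Curve.lin (a b : Matrix I J R) : Curve fun s : K => a + s • (b - a) :=
  ⟨of fun i j => C (a i j) + X * C (b i j - a i j), fun s => by
    ext i j; simp [Algebra.smul_def]⟩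

theorem Pw.join : ∀ {n : ℕ} {M M' : Matrix W W R}, Pw V n M → Pw V n M' →
    ∃ γ : K → Matrix W W R, Curve γ ∧ γ 0 = M ∧ γ 1 = M' ∧ ∀ s, Pw V n (γ s)
  | 0, M, M', h, h' => ⟨fun _ => 1, by simpa using Curve.lin (K := K) (1 : Matrix W W R) 1,
      (show M = 1 from h).symm, (show M' = 1 from h').symm, fun _ => rfl⟩
  | _ + 1, _, _, ⟨N, M₁, h1, h2, h3⟩, ⟨N', M₁', h1', h2', h3'⟩ => by
    obtain ⟨γ, h4, h5, h6, h7⟩ := h2.join h2'
    refine ⟨fun s => (N + s • (N' - N)) * γ s, (Curve.lin N N').mul h4, by simp [h3, h5],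
      by simp [h3', h6], fun s => ⟨_, _, fun a b => ?_, h7 s, rfl⟩⟩
    exact V.add_mem (h1 a b) (V.smul_mem s (V.sub_mem (h1' a b) (h1 a b)))

theorem Pw.sub (e : W' ≃ W) : ∀ {n : ℕ} {M : Matrix W W R}, Pw V n M → Pw V n (M.submatrix e e)
  | 0, M, h => by rw [show M = 1 from h]; exact submatrix_one_equiv e
  | _ + 1, _, ⟨N, M₁, h1, h2, h3⟩ =>
    ⟨N.submatrix e e, _, fun _ _ => h1 _ _, h2.sub e, by rw [h3, submatrix_mul_equiv]⟩

theorem Pw.mem : ∀ {n : ℕ} {M : Matrix W W R}, Pw V n M → ∀ a b, M a b ∈ V ^ n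
  | 0, M, h => fun a b => by
    rw [show M = 1 from h, one_apply, pow_zero]
    split_ifs
    exacts [Submodule.one_le.1 le_rfl, zero_mem _]
  | n + 1, _, ⟨N, M₁, h1, h2, h3⟩ => fun a b => by
    rw [h3, mul_apply, pow_succ']
    exact Submodule.sum_mem _ fun x _ => Submodule.mul_mem_mul (h1 _ _) (h2.mem _ _)

theorem Abp.mem {F : Matrix I J R} (h : Abp V n w F) (a : I) (b : J) : F a b ∈ V ^ n := by
  obtain ⟨W, _, _, U, M, U', -, h2, rfl⟩ := h
  simp only [mul_apply, map_apply]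
  refine Submodule.sum_mem _ fun x _ => ?_
  rw [mul_comm, ← Algebra.smul_def]
  refine Submodule.smul_mem _ _ (Submodule.sum_mem _ fun y _ => ?_)
  rw [← Algebra.smul_def]
  exact Submodule.smul_mem _ _ (h2.mem _ _)

theorem Abp.canon (h1 : (1 : R) ∈ V) {F : Matrix I J R} (h : Abp V n w F) :
    ∃ (U : Matrix I (Fin w) K) (M : Matrix (Fin w) (Fin w) R) (U' : Matrix (Fin w) J K),
      Pw V n M ∧ F = U.map (algebraMap K R) * M * U'.map (algebraMap K R) := by
  obtain ⟨W, _, _, U, M, U', h2, h3, rfl⟩ := h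
  let e : Fin w ≃ W ⊕ Fin (w - Fintype.card W) := Fintype.equivOfCardEq (by simp; omega)
  refine ⟨(fromCols U 0).submatrix id e, _, (fromRows U' 0).submatrix e id,
    (h3.block (Pw.one h1 n)).sub e, ?_⟩
  rw [← submatrix_map, ← submatrix_map, submatrix_mul_equiv, submatrix_mul_equiv, submatrix_id_id,
    fromCols_map, fromRows_map, fromCols_mul_fromBlocks, fromCols_mul_fromRows]
  simp

theorem Abp.join (h1 : (1 : R) ∈ V) {F F' : Matrix I J R} (h : Abp V n w F) (h' : Abp V n w F') :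
    ∃ γ : K → Matrix I J R, Curve γ ∧ γ 0 = F ∧ γ 1 = F' ∧ ∀ s, Abp V n w (γ s) := by
  obtain ⟨U, M, U', h2, rfl⟩ := h.canon h1
  obtain ⟨U₁, M₁, U₁', h2', rfl⟩ := h'.canon h1
  obtain ⟨γ, h4, h5, h6, h7⟩ := h2.join h2'
  refine ⟨_, ((Curve.lin (U.map (algebraMap K R)) (U₁.map (algebraMap K R))).mul h4).mul
    (Curve.lin (U'.map (algebraMap K R)) (U₁'.map (algebraMap K R))), by simp [h5], by simp [h6],
    fun s => ⟨Fin w, _, _, U + s • (U₁ - U), γ s, U' + s • (U₁' - U'), by simp, h7 s, ?_⟩⟩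
  congr 2
  · ext; simp [Algebra.smul_def]
  · ext; simp [Algebra.smul_def]

theorem exists_poly (l : R →ₗ[K] K) (Γ : R[X]) :
    ∃ p : K[X], ∀ s, p.eval s = l (Γ.eval (algebraMap K R s)) := by
  induction Γ using Polynomial.induction_on' with
  | add p q hp hq =>
    obtain ⟨p', hp⟩ := hp
    obtain ⟨q', hq⟩ := hq
    exact ⟨p' + q', fun s => by simp [hp, hq]⟩
  | monomial n a =>
    refine ⟨monomial n (l a), fun s => ?_⟩
    rw [eval_monomial, eval_monomial, ← map_pow, mul_comm a, ← Algebra.smul_def, map_smul,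
      smul_eq_mul, mul_comm]

variable {A B τ : Type} [Fintype A] [Fintype B] [DecidableEq A] [DecidableEq B]

theorem semiQ (F : Matrix A B K[X]) (s₀ : K) :
    ∃ q : K[X], q ≠ 0 ∧ ∀ s, q.eval s ≠ 0 → (ev s₀ F).rank ≤ (ev s F).rank := by
  obtain ⟨Z₁, Z₂, h1, -⟩ := exists_gi (ev s₀ F)
  have hN : ∀ s, (cst Z₂ * F * cst Z₁).det.eval s = (Z₂ * ev s F * Z₁).det := fun s => by
    rw [ev_det, ev_mul, ev_mul, ev_cst, ev_cst]
  refine ⟨(cst Z₂ * F * cst Z₁).det, fun e => ?_, fun s hs => ?_⟩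
  · have := hN s₀
    simp [e, h1] at this
  · exact (Fintype.card_fin _).symm.trans_le (card_le_rank _ _ _ (hN s ▸ hs))

theorem Curve.semi (c : R →ₗ[K] τ → K) {γ : K → Matrix Unit Unit R} (h : Curve γ)
    (P : Matrix A B (MvPolynomial τ K)) (s₀ : K) : ∃ q : K[X], q ≠ 0 ∧ ∀ s, q.eval s ≠ 0 →
      (pv c P (γ s₀ () ())).rank ≤ (pv c P (γ s () ())).rank := by
  obtain ⟨Γ, h⟩ := h
  choose p hp using fun μ => exists_poly (LinearMap.proj μ ∘ₗ c) (Γ () ())
  have h1 : ∀ s, ev s (P.map (MvPolynomial.aeval p)) = pv c P (γ s () ()) := fun s => by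
    have h2 : c (γ s () ()) = fun μ => (p μ).eval s := by
      ext μ; rw [hp, ← h s]; rfl
    ext a b
    simp only [ev, pv, map_apply, h2, coe_evalRingHom]
    induction P a b using MvPolynomial.induction_on with
    | C a => simp
    | add p q hp hq => simp [hp, hq]
    | mul_X p μ hp => simp [hp]
  simpa only [h1] using semiQ (P.map (MvPolynomial.aeval p)) s₀

theorem family [Infinite K] (h1 : (1 : R) ∈ V) (c : R →ₗ[K] τ → K) {ι : Type} (T : Finset ι)
    (P : ι → Matrix A B (MvPolynomial τ K)) (F : ι → Matrix Unit Unit R)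
    (hF : ∀ i, Abp V n w (F i)) : ∃ G : Matrix Unit Unit R, Abp V n w G ∧
      ∀ i ∈ T, (pv c (P i) (F i () ())).rank ≤ (pv c (P i) (G () ())).rank := by
  classical
  induction T using Finset.induction_on with
  | empty => exact ⟨0, Abp.zero h1, by simp⟩
  | insert i T _ ih =>
    obtain ⟨G, hG, h2⟩ := ih
    obtain ⟨γ, h3, h4, h5, h6⟩ := hG.join h1 (hF i)
    choose q hq hq' using fun j => h3.semi c (P j) 0
    obtain ⟨q₁, hq₁, hq₁'⟩ := h3.semi c (P i) 1
    obtain ⟨s, hs⟩ : ∃ s, (q₁ * ∏ j ∈ T, q j).eval s ≠ 0 := by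
      by_contra hc
      push Not at hc
      exact mul_ne_zero hq₁ (Finset.prod_ne_zero_iff.2 fun j _ => hq j)
        (Polynomial.funext fun s => by rw [hc, eval_zero])
    rw [eval_mul, eval_prod, mul_ne_zero_iff, Finset.prod_ne_zero_iff] at hs
    refine ⟨γ s, h6 s, fun j hj => ?_⟩
    rcases Finset.mem_insert.1 hj with rfl | hj
    · exact h5 ▸ hq₁' s hs.1
    · exact (h2 j hj).trans (h4 ▸ hq' j s (hs.2 j hj))

end Pool.Agent.Lib.MP_8b1d3b_lc.Barrier
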