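import Mathlib

/-! Linear algebra: generalised inverses, semicontinuity of the rank, Schur complements. -/

namespace Pool.Agent.Lib.MP_8b1d3b_lc.Barrier

open Matrix Module

variable {K : Type} [Field K] {A B : Type} [Fintype A] [Fintype B] [DecidableEq A] [DecidableEq B]

omit [Fintype A] [DecidableEq A] [DecidableEq B] in
theorem rk_add (M N : Matrix A B K) : (M + N).rank ≤ M.rank + N.rank := by
  unfold Matrix.rank
  refine le_trans (Submodule.finrank_mono ?_) (Submodule.finrank_add_le_finrank_add_finrank _ _)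
  rintro _ ⟨x, rfl⟩
  rw [mulVecLin_add]
  exact Submodule.add_mem_sup ⟨x, rfl⟩ ⟨x, rfl⟩

theorem exists_gi (M : Matrix A B K) :
    ∃ (Z₁ : Matrix B (Fin M.rank) K) (Z₂ : Matrix (Fin M.rank) A K),
      Z₂ * M * Z₁ = 1 ∧ M * Z₁ * Z₂ * M = M := by
  let f := Matrix.toLin' M
  have hr : finrank K (LinearMap.range f) = M.rank := rfl
  let e : LinearMap.range f ≃ₗ[K] (Fin M.rank → K) := (finBasisOfFinrankEq K _ hr).equivFun
  obtain ⟨g, hg⟩ := f.rangeRestrict.exists_rightInverse_of_surjective f.range_rangeRestrict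
  obtain ⟨p, hp⟩ := (LinearMap.range f).subtype.exists_leftInverse_of_injective
    (Submodule.ker_subtype _)
  have h1 : ∀ y, f (g y) = y := fun y => congrArg Subtype.val (LinearMap.congr_fun hg y)
  have h2 : ∀ y : LinearMap.range f, p y = y := fun y => LinearMap.congr_fun hp y
  refine ⟨LinearMap.toMatrix' (g ∘ₗ e.symm.toLinearMap), LinearMap.toMatrix' (e.toLinearMap ∘ₗ p),
    ?_, ?_⟩
  · apply Matrix.toLin'.injective
    simp only [toLin'_mul, toLin'_toMatrix', toLin'_one]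
    refine LinearMap.ext fun x => ?_
    change e (p (f (g (e.symm x)))) = x
    rw [h1, h2, e.apply_symm_apply]
  · apply Matrix.toLin'.injective
    simp only [toLin'_mul, toLin'_toMatrix']
    refine LinearMap.ext fun x => ?_
    change f (g (e.symm (e (p (f x))))) = f x
    rw [e.symm_apply_apply, h1]
    exact congrArg Subtype.val (h2 ⟨f x, x, rfl⟩)

theorem eq_zero_of_rank {M : Matrix A B K} (h : M.rank = 0) : M = 0 := by
  obtain ⟨Z₁, Z₂, -, h2⟩ := exists_gi M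
  have : IsEmpty (Fin M.rank) := by rw [h]; infer_instance
  rw [← h2, Matrix.mul_assoc M Z₁ Z₂, show Z₁ * Z₂ = 0 by ext; simp [mul_apply]]
  simp

omit [DecidableEq A] [DecidableEq B] in
theorem card_le_rank {ι : Type} [Fintype ι] [DecidableEq ι] (M : Matrix A B K) (U : Matrix ι A K)
    (V : Matrix B ι K) (h : (U * M * V).det ≠ 0) : Fintype.card ι ≤ M.rank := by
  rw [← rank_of_det_ne_zero h]
  exact (rank_mul_le_left _ _).trans (rank_mul_le_right _ _)

theorem semi [Infinite K] (F₀ F₁ F₂ : Matrix A B K) :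
    ∃ s : K, s ≠ 0 ∧ F₀.rank ≤ (F₀ + s • F₁ + s ^ 2 • F₂).rank := by
  obtain ⟨Z₁, Z₂, h1, -⟩ := exists_gi F₀
  let N : Matrix (Fin F₀.rank) (Fin F₀.rank) (Polynomial K) :=
    1 + (Polynomial.X : Polynomial K) • (Z₂ * F₁ * Z₁).map Polynomial.C +
      (Polynomial.X ^ 2 : Polynomial K) • (Z₂ * F₂ * Z₁).map Polynomial.C
  have hN : ∀ s : K, N.det.eval s = (Z₂ * (F₀ + s • F₁ + s ^ 2 • F₂) * Z₁).det := fun s => by
    rw [← Polynomial.coe_evalRingHom, RingHom.map_det]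
    congr 1
    simp only [Matrix.mul_add, Matrix.add_mul, Matrix.mul_smul, Matrix.smul_mul, h1]
    ext i j
    simp only [N, RingHom.mapMatrix_apply, Matrix.map_apply, Matrix.add_apply, Matrix.smul_apply,
      Matrix.one_apply, smul_eq_mul, Polynomial.coe_evalRingHom, Polynomial.eval_add,
      Polynomial.eval_mul, Polynomial.eval_pow, Polynomial.eval_X, Polynomial.eval_C]
    split_ifs <;> simp
  by_contra hc
  push Not at hc
  have h0 : (Polynomial.X * N.det : Polynomial K) = 0 := Polynomial.funext fun s => by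
    by_contra hs
    simp only [Polynomial.eval_mul, Polynomial.eval_X, Polynomial.eval_zero, mul_eq_zero,
      not_or] at hs
    have := card_le_rank _ _ _ (hN s ▸ hs.2)
    rw [Fintype.card_fin] at this
    exact absurd this (not_le.2 (hc s hs.1))
  have h2 := hN 0
  rw [(mul_eq_zero.1 h0).resolve_left Polynomial.X_ne_zero] at h2
  simp [h1] at h2

theorem core [Infinite K] (M : Matrix A B K) :
    ∃ (Z₁ : Matrix B (Fin M.rank) K) (Z₂ : Matrix (Fin M.rank) A K) (P : Matrix B B K)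
      (Q : Matrix A A K), Q = 1 - M * Z₁ * Z₂ ∧ M * P = 0 ∧ Q * M = 0 ∧
      (1 - P).rank ≤ M.rank ∧ (1 - Q).rank ≤ M.rank ∧
      (∀ N : Matrix A B K, ∃ s : K, M.rank + (Q * N * P).rank ≤ (M + s • N).rank) ∧
      ∀ N₁ N₂ : Matrix A B K, Q * N₁ * P = 0 → ∃ s : K,
        M.rank + (Q * (N₂ - N₁ * Z₁ * Z₂ * N₁) * P).rank ≤ (M + s • N₁ + s ^ 2 • N₂).rank := by
  obtain ⟨Z₁, Z₂, h1, h2⟩ := exists_gi M
  obtain ⟨P, hP⟩ : ∃ P, P = 1 - Z₁ * Z₂ * M := ⟨_, rfl⟩
  obtain ⟨Q, hQ⟩ : ∃ Q, Q = 1 - M * Z₁ * Z₂ := ⟨_, rfl⟩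
  have hMP : M * P = 0 := by
    rw [hP, Matrix.mul_sub, Matrix.mul_one, ← Matrix.mul_assoc, ← Matrix.mul_assoc, h2, sub_self]
  have hQM : Q * M = 0 := by rw [hQ, Matrix.sub_mul, Matrix.one_mul, h2, sub_self]
  have hPZ : P * Z₁ = 0 := by
    rw [hP, Matrix.sub_mul, Matrix.one_mul, Matrix.mul_assoc Z₁, Matrix.mul_assoc Z₁, h1,
      Matrix.mul_one, sub_self]
  have hPP : P * P = P := by
    nth_rewrite 1 [hP]
    rw [Matrix.sub_mul, Matrix.one_mul, Matrix.mul_assoc _ M, hMP, Matrix.mul_zero, sub_zero]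
  have hD : ∀ W : Matrix A B K, M.rank + (Q * W * P).rank ≤ (M + W * P).rank := fun W => by
    obtain ⟨Y₁, Y₂, h3, -⟩ := exists_gi (Q * W * P)
    have h4 := card_le_rank (M + W * P) (fromRows Z₂ (Y₂ * Q)) (fromCols Z₁ (P * Y₁)) (by
      have e1 : (M + W * P) * Z₁ = M * Z₁ := by
        rw [Matrix.add_mul, Matrix.mul_assoc W, hPZ, Matrix.mul_zero, add_zero]
      have e2 : (M + W * P) * (P * Y₁) = W * P * Y₁ := by
        rw [← Matrix.mul_assoc, Matrix.add_mul, hMP, zero_add, Matrix.mul_assoc W, hPP]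
      have e3 : Y₂ * Q * (W * P * Y₁) = 1 := by rw [← h3]; simp only [Matrix.mul_assoc]
      have e4 : Y₂ * Q * (M * Z₁) = 0 := by
        rw [← Matrix.mul_assoc, Matrix.mul_assoc Y₂, hQM]; simp
      rw [Matrix.mul_assoc _ (M + W * P), mul_fromCols, fromRows_mul_fromCols, e1, e2, e3, e4,
        ← Matrix.mul_assoc Z₂ M, h1, det_fromBlocks_zero₂₁]
      simp)
    simpa using h4
  refine ⟨Z₁, Z₂, P, Q, hQ, hMP, hQM, ?_, ?_, fun N => ?_, fun N₁ N₂ h0 => ?_⟩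
  · rw [hP, sub_sub_cancel]; exact rank_mul_le_right _ _
  · rw [hQ, sub_sub_cancel, Matrix.mul_assoc]; exact rank_mul_le_left _ _
  · obtain ⟨s, hs, h⟩ := semi (M + N * P) (N * (1 - P)) 0
    refine ⟨s, (hD N).trans (h.trans ?_)⟩
    have : M + N * P + s • (N * (1 - P)) + s ^ 2 • (0 : Matrix A B K) =
        (M + s • N) * (1 - P + s⁻¹ • P) := by
      simp only [Matrix.mul_add, Matrix.add_mul, Matrix.mul_sub, Matrix.mul_smul, Matrix.smul_mul,
        Matrix.mul_one, hMP, smul_zero]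
      match_scalars <;> field_simp
      ring
    rw [this]
    exact rank_mul_le_left _ _
  · obtain ⟨s, hs, h⟩ := semi (M + (N₂ - N₁ * Z₁ * Z₂ * N₁) * P)
      (N₁ * (1 - P) - N₂ * (Z₁ * Z₂ * N₁ * P)) (N₂ * (1 - P))
    refine ⟨s, (hD _).trans (h.trans ?_)⟩
    have h5 : M * (Z₁ * (Z₂ * (N₁ * P))) = N₁ * P := by
      rw [hQ, Matrix.sub_mul, Matrix.sub_mul, Matrix.one_mul, sub_eq_zero] at h0
      simpa only [Matrix.mul_assoc] using h0.symm
    have : M + (N₂ - N₁ * Z₁ * Z₂ * N₁) * P + s • (N₁ * (1 - P) - N₂ * (Z₁ * Z₂ * N₁ * P)) +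
        s ^ 2 • (N₂ * (1 - P)) = (M + s • N₁ + s ^ 2 • N₂) *
          (1 - P + (s⁻¹ ^ 2) • (P - s • (Z₁ * Z₂ * N₁ * P))) := by
      simp only [Matrix.mul_add, Matrix.add_mul, Matrix.mul_sub, Matrix.sub_mul, Matrix.mul_smul,
        Matrix.smul_mul, Matrix.mul_one, hMP, Matrix.mul_assoc, h5]
      match_scalars <;> field_simp <;> ring
    rw [this]
    exact rank_mul_le_left _ _

theorem exists_max {α : Type*} (S : Set α) (f : α → ℕ) (b : ℕ) (hb : ∀ a ∈ S, f a ≤ b) {a₀ : α}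
    (h₀ : a₀ ∈ S) : ∃ a ∈ S, ∀ a' ∈ S, f a' ≤ f a := by
  have hne : (f '' S).Nonempty := ⟨_, a₀, h₀, rfl⟩
  have hbd : BddAbove (f '' S) := ⟨b, by rintro _ ⟨a, ha, rfl⟩; exact hb a ha⟩
  obtain ⟨a, ha, h⟩ := Nat.sSup_mem hne hbd
  exact ⟨a, ha, fun a' ha' => h ▸ le_csSup hbd ⟨a', ha', rfl⟩⟩

theorem rank_le_cmp (P : Matrix B B K) (Q : Matrix A A K) (M : Matrix A B K) :
    M.rank ≤ (Q * M * P).rank + ((1 - P).rank + (1 - Q).rank) := by
  have h : M = Q * M * P + (M * (1 - P) + (1 - Q) * (M * P)) := by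
    simp only [Matrix.mul_sub, Matrix.sub_mul, Matrix.mul_one, Matrix.one_mul, Matrix.mul_assoc]
    abel
  nth_rewrite 1 [h]
  refine (rk_add _ _).trans (Nat.add_le_add_left ((rk_add _ _).trans ?_) _)
  exact Nat.add_le_add (rank_mul_le_right _ _) (rank_mul_le_left _ _)

theorem cork_mul (P P' : Matrix B B K) : (1 - P * P').rank ≤ (1 - P).rank + (1 - P').rank := by
  have h : 1 - P * P' = (1 - P) + P * (1 - P') := by noncomm_ring
  rw [h]
  exact (rk_add _ _).trans (Nat.add_le_add_left (rank_mul_le_right _ _) _)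

/-- The family `E` vanishes after removing `ρ` rows and columns in all, in suitable bases. -/
def Kill {Ω : Type*} (E : Ω → Matrix A B K) (ρ : ℕ) : Prop :=
  ∃ (P : Matrix B B K) (Q : Matrix A A K), (1 - P).rank + (1 - Q).rank ≤ ρ ∧ ∀ ω, Q * E ω * P = 0

theorem Kill.comp {Ω : Type*} {E : Ω → Matrix A B K} {P : Matrix B B K} {Q : Matrix A A K}
    {ρ ρ' : ℕ} (h : (1 - P).rank + (1 - Q).rank ≤ ρ) (h' : Kill (fun ω => Q * E ω * P) ρ') :
    Kill E (ρ + ρ') := by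
  obtain ⟨P', Q', h1, h2⟩ := h'
  refine ⟨P * P', Q' * Q, ?_, fun ω => by simpa only [Matrix.mul_assoc] using h2 ω⟩
  have := cork_mul P P'
  have := cork_mul Q' Q
  omega

/-- A family with two opposite factorisations is trivial. -/
theorem kill_two [Infinite K] {C D ι κ : Type} [Fintype ι] [Fintype κ] (X : C → Matrix A ι K)
    (Y : D → Matrix ι B K) (X' : D → Matrix A κ K) (Y' : C → Matrix κ B K)
    (h : ∀ c d, X c * Y d = X' d * Y' c) :
    Kill (fun p : C × D => X p.1 * Y p.2) (Fintype.card ι + Fintype.card κ) := by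
  classical
  obtain ⟨Y₀, ⟨X₀, h0⟩, hmax⟩ := exists_max
    {Y₀ : Matrix κ B K | ∃ X₀ : Matrix A ι K, ∀ d, X' d * Y₀ = X₀ * Y d} Matrix.rank
    (Fintype.card κ) (fun a _ => rank_le_card_height a) (a₀ := 0) ⟨0, fun d => by simp⟩
  obtain ⟨Z₁, Z₂, P, Q₀, hQ, -, -, hP, -, h1, -⟩ := core Y₀
  obtain ⟨_, _, _, Q, -, -, hQX, -, hQ', -⟩ := core X₀
  refine ⟨P, Q, ?_, fun ⟨c, d⟩ => ?_⟩
  · have := rank_le_card_height Y₀
    have := rank_le_card_width X₀
    omega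
  · obtain ⟨s, hs⟩ := h1 (Y' c)
    have h2 := hmax (Y₀ + s • Y' c) ⟨X₀ + s • X c, fun d => by
      rw [Matrix.mul_add, Matrix.add_mul, Matrix.mul_smul, Matrix.smul_mul, h0, h]⟩
    have h3 : Q₀ * Y' c * P = 0 := eq_zero_of_rank (by omega)
    rw [hQ, Matrix.sub_mul, Matrix.sub_mul, Matrix.one_mul, sub_eq_zero] at h3
    have h4 : X' d * (Y' c * P) = X₀ * (Y d * (Z₁ * Z₂ * Y' c * P)) := by
      rw [h3, ← Matrix.mul_assoc X₀, ← h0]; simp only [Matrix.mul_assoc]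
    change Q * (X c * Y d) * P = 0
    rw [h, Matrix.mul_assoc, Matrix.mul_assoc, h4, ← Matrix.mul_assoc, hQX, Matrix.zero_mul]

/-- A bilinear family of matrices of small rank splits. -/
theorem split [Infinite K] {G H : Type} [AddCommGroup G] [Module K G] [AddCommGroup H] [Module K H]
    (U : Submodule K G) (V : Submodule K H) (M : G →ₗ[K] H →ₗ[K] Matrix A B K) (r : ℕ)
    (hr : ∀ u ∈ U, ∀ v ∈ V, (M u v).rank ≤ r) :
    ∃ (r₀ : ℕ) (P : Matrix B B K) (Q : Matrix A A K) (α : G → Matrix A (Fin r₀) K)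
      (β : H → Matrix (Fin r₀) B K) (γ : H → Matrix A (Fin r₀) K) (δ : G → Matrix (Fin r₀) B K),
      r₀ ≤ r ∧ (1 - P).rank + (1 - Q).rank ≤ 2 * r ∧
      ∀ u ∈ U, ∀ v ∈ V, Q * M u v * P = α u * β v + γ v * δ u := by
  obtain ⟨⟨u₀, v₀⟩, ⟨hu₀, hv₀⟩, hmax⟩ := exists_max {p : G × H | p.1 ∈ U ∧ p.2 ∈ V}
    (fun p => (M p.1 p.2).rank) r (fun a ha => hr _ ha.1 _ ha.2) (a₀ := (0, 0))
    ⟨U.zero_mem, V.zero_mem⟩
  obtain ⟨Z₁, Z₂, P, Q, -, -, -, hP, hQ, h1, h2⟩ := core (M u₀ v₀)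
  have h0 : (M u₀ v₀).rank ≤ r := hr _ hu₀ _ hv₀
  have hm : ∀ u ∈ U, ∀ v ∈ V, ∀ s : K,
      (M u₀ v₀ + s • (M u v₀ + M u₀ v) + s ^ 2 • M u v).rank ≤ (M u₀ v₀).rank :=
    fun u hu v hv s => by
      refine le_of_eq_of_le (congrArg _ ?_) (hmax (u₀ + s • u, v₀ + s • v)
        ⟨U.add_mem hu₀ (U.smul_mem _ hu), V.add_mem hv₀ (V.smul_mem _ hv)⟩)
      simp only [map_add, map_smul, LinearMap.add_apply, LinearMap.smul_apply]
      module
  have ha : ∀ u ∈ U, Q * M u v₀ * P = 0 := fun u hu => by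
    obtain ⟨s, hs⟩ := h1 (M u v₀)
    have := hm u hu 0 V.zero_mem s
    simp only [map_zero, add_zero, smul_zero] at this
    exact eq_zero_of_rank (by omega)
  have hb : ∀ v ∈ V, Q * M u₀ v * P = 0 := fun v hv => by
    obtain ⟨s, hs⟩ := h1 (M u₀ v)
    have := hm 0 U.zero_mem v hv s
    simp only [map_zero, add_zero, zero_add, smul_zero, LinearMap.zero_apply] at this
    exact eq_zero_of_rank (by omega)
  have hc : ∀ u ∈ U, ∀ v ∈ V,
      Q * (M u v - (M u v₀ + M u₀ v) * Z₁ * Z₂ * (M u v₀ + M u₀ v)) * P = 0 := fun u hu v hv => by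
    obtain ⟨s, hs⟩ := h2 (M u v₀ + M u₀ v) (M u v) (by
      rw [Matrix.mul_add, Matrix.add_mul, ha u hu, hb v hv, add_zero])
    have := hm u hu v hv s
    exact eq_zero_of_rank (by omega)
  refine ⟨_, P, Q, fun u => Q * M u v₀ * Z₁, fun v => Z₂ * M u₀ v * P, fun v => Q * M u₀ v * Z₁,
    fun u => Z₂ * M u v₀ * P, h0, by omega, fun u hu v hv => ?_⟩
  have e1 := hc u hu v hv
  have e2 := hc u hu 0 V.zero_mem
  have e3 := hc 0 U.zero_mem v hv
  simp only [map_zero, LinearMap.zero_apply, add_zero, zero_add, zero_sub, Matrix.mul_neg,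
    Matrix.neg_mul, neg_eq_zero, Matrix.mul_add, Matrix.add_mul, Matrix.mul_sub, Matrix.sub_mul,
    Matrix.mul_assoc] at e1 e2 e3 ⊢
  rw [e2, e3, sub_eq_zero] at e1
  rw [e1]
  abel

end Pool.Agent.Lib.MP_8b1d3b_lc.Barrier
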