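import Pool.Agent.Lib.MP_8b1d3b_lc.Barrier.Fam

/-! The barrier for forms of a given degree. -/

namespace Pool.Agent.Lib.MP_8b1d3b_lc.Barrier

open Matrix Finset MvPolynomial

variable {K : Type} [Field K] {N : ℕ}

variable (K N) in
/-- The letters `1, x_1, ..., x_N`. -/
noncomputable def lt : Option (Fin N) → MvPolynomial (Fin N) K
  | none => 1
  | some i => X i

/-- The degree of a letter. -/
def ld : Option (Fin N) → ℕ
  | none => 0
  | some _ => 1

/-- Scaling of the variables. -/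
noncomputable def sc (a : K) : MvPolynomial (Fin N) K →ₐ[K] MvPolynomial (Fin N) K :=
  aeval fun i => a • X i

theorem sc_lt (a : K) (c : Option (Fin N)) : sc a (lt K N c) = a ^ ld c • lt K N c := by
  cases c <;> simp [sc, lt, ld]

theorem lt_hom (c : Option (Fin N)) : (lt K N c).IsHomogeneous (ld c) := by
  cases c
  exacts [isHomogeneous_one _ _, isHomogeneous_X _ _]

theorem one_mem_lt : (1 : MvPolynomial (Fin N) K) ∈ Submodule.span K (Set.range (lt K N)) :=
  Submodule.subset_span ⟨none, rfl⟩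

theorem sc_mem (a : K) : ∀ x ∈ Submodule.span K (Set.range (lt K N)),
    sc a x ∈ Submodule.span K (Set.range (lt K N)) := fun x hx => by
  have : Submodule.span K (Set.range (lt K N)) ≤
      (Submodule.span K (Set.range (lt K N))).comap (sc a).toLinearMap := by
    rw [Submodule.span_le]
    rintro _ ⟨c, rfl⟩
    change sc a _ ∈ Submodule.span K _
    rw [sc_lt]
    exact Submodule.smul_mem _ _ (Submodule.subset_span ⟨c, rfl⟩)
  exact this hx

theorem deg_le_one : ∀ x ∈ Submodule.span K (Set.range (lt K N)), x.totalDegree ≤ 1 := fun x hx => by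
  have : Submodule.span K (Set.range (lt K N)) ≤ restrictTotalDegree (Fin N) K 1 := by
    rw [Submodule.span_le]
    rintro _ ⟨c, rfl⟩
    refine (mem_restrictTotalDegree _ _ _).2 ((lt_hom c).totalDegree_le.trans ?_)
    cases c <;> simp [ld]
  exact (mem_restrictTotalDegree _ _ _).1 (this hx)

theorem hom_mem {d D : ℕ} (h : d ≤ D) {f : MvPolynomial (Fin N) K} (hf : f.IsHomogeneous d) :
    f ∈ Submodule.span K (Set.range (lt K N)) ^ D := by
  obtain ⟨c, rfl⟩ := Nat.exists_eq_add_of_le h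
  have h1 : homogeneousSubmodule (Fin N) K 1 ≤ Submodule.span K (Set.range (lt K N)) := by
    rw [homogeneousSubmodule_one_eq_span_X]
    exact Submodule.span_mono (by rintro _ ⟨i, rfl⟩; exact ⟨some i, rfl⟩)
  have h2 : f ∈ homogeneousSubmodule (Fin N) K 1 ^ d := by rwa [homogeneousSubmodule_one_pow]
  have h3 := Submodule.mul_mem_mul (pow_le_pow_left' h1 d h2)
    (Submodule.pow_mem_pow _ (one_mem_lt (K := K) (N := N)) c)
  rwa [one_pow, mul_one, ← pow_add] at h3

theorem interp [Infinite K] {d D : ℕ} (h : d ≤ D) : ∃ v c : Fin (D + 1) → K,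
    ∀ f ∈ Submodule.span K (Set.range (lt K N)) ^ D,
      homogeneousComponent d f = ∑ i, c i • sc (v i) f := by
  let v : Fin (D + 1) → K := fun i => Infinite.natEmbedding K i
  have hv : IsUnit (vandermonde v).det := Ne.isUnit (det_vandermonde_ne_zero_iff.2 fun i j e =>
    Fin.ext ((Infinite.natEmbedding K).injective e))
  let c : Fin (D + 1) → K := Pi.single ⟨d, by omega⟩ 1 ᵥ* (vandermonde v)⁻¹
  have hc : ∀ e ≤ D, ∑ i, c i * v i ^ e = if d = e then 1 else 0 := fun e he => by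
    have : (c ᵥ* vandermonde v) ⟨e, by omega⟩ = (Pi.single ⟨d, by omega⟩ 1 : Fin (D + 1) → K)
        ⟨e, by omega⟩ := by
      rw [vecMul_vecMul, nonsing_inv_mul _ hv, vecMul_one]
    simpa [vecMul, dotProduct, Pi.single_apply, eq_comm] using this
  refine ⟨v, c, fun f hf => ?_⟩
  have : Submodule.span K (Set.range (lt K N)) ^ D ≤ LinearMap.eqLocus (homogeneousComponent d)
      (∑ i, c i • (sc (v i)).toLinearMap) := by
    rw [pow_eq, Submodule.span_le]
    rintro _ ⟨x, rfl⟩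
    have h1 : (mon (lt K N) x).IsHomogeneous (∑ p, ld (x p)) :=
      IsHomogeneous.prod _ _ _ fun p _ => lt_hom _
    have h2 : ∑ p, ld (x p) ≤ D := by
      refine (sum_le_card_nsmul _ _ 1 fun p _ => ?_).trans (by simp)
      cases x p <;> simp [ld]
    have h3 : ∀ a : K, sc a (mon (lt K N) x) = a ^ (∑ p, ld (x p)) • mon (lt K N) x := fun a => by
      simp only [mon, map_prod, sc_lt, prod_smul, prod_pow_eq_pow_sum]
    change homogeneousComponent d _ = _
    simp only [homogeneousComponent_of_mem h1, LinearMap.sum_apply, LinearMap.smul_apply,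
      AlgHom.toLinearMap_apply, h3, smul_smul, ← sum_smul, hc _ h2]
    split_ifs <;> simp
  simpa using LinearMap.mem_eqLocus.1 (this hf)

theorem main (K : Type) [Field K] [Infinite K] (N d k : ℕ) (A B : Type) [Fintype A] [Fintype B]
    (L : MvPolynomial (Fin N) K →ₗ[K] Matrix A B K) :
    ∃ (w : ℕ) (l : List (Matrix (Fin w) (Fin w) (MvPolynomial (Fin N) K))),
      w ≤ 6 * k * (2 * d + 2) ^ 9 * (N + 3) ∧ l.length ≤ 4 * d + 2 ∧
      (∀ M ∈ l, ∀ a b, (M a b).totalDegree ≤ 1) ∧ l.prod.trace.IsHomogeneous d ∧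
      ∀ f : MvPolynomial (Fin N) K, f.IsHomogeneous d →
        k * (L f).rank ≤ (2 * k + 1) * (L l.prod.trace).rank := by
  classical
  obtain ⟨j, hj, hj'⟩ : ∃ j, d ≤ 2 ^ j ∧ 2 ^ j ≤ 2 * d + 1 := by
    rcases Nat.eq_zero_or_pos d with rfl | hd
    · exact ⟨0, by simp⟩
    · have h1 := Nat.pow_log_le_self 2 hd.ne'
      exact ⟨_, (Nat.lt_pow_succ_log_self one_lt_two d).le, by rw [pow_succ]; omega⟩
  obtain ⟨f₀, hf₀, hmax⟩ := exists_max {f : MvPolynomial (Fin N) K | f.IsHomogeneous d}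
    (fun f => (L f).rank) _ (fun a _ => rank_le_card_width _) (isHomogeneous_zero _ _ d)
  obtain ⟨v, c, hc⟩ := interp (K := K) (N := N) hj
  obtain ⟨g, hg, h1⟩ := boost (A := A) (B := B) {G : Matrix Unit Unit (MvPolynomial (Fin N) K) |
      (∀ a b, G a b ∈ Submodule.span K (Set.range (lt K N)) ^ 2 ^ j) ∧
        Abp (Submodule.span K (Set.range (lt K N))) (2 ^ (j + 1) - 1)
          (2 * 216 ^ j * (1 + Fintype.card (Option (Fin N)) + 1)) G}
    ⟨fun _ _ => Submodule.zero_mem _, Abp.zero one_mem_lt⟩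
    (fun s hs a => ⟨fun _ _ => Submodule.smul_mem _ _ (hs.1 _ _), hs.2.smul a⟩)
    (of fun _ _ => f₀) 3 k (by norm_num)
    (recursion (lt K N) one_mem_lt j 1 Unit Unit (by simp) (by simp) _ fun _ _ => hom_mem hj hf₀)
    (L ∘ₗ homogeneousComponent d ∘ₗ entryLinearMap K _ () ())
  have h2 : (∑ l, g l) () () ∈ Submodule.span K (Set.range (lt K N)) ^ 2 ^ j := by
    rw [Matrix.sum_apply]
    exact Submodule.sum_mem _ fun l _ => (hg l).1 _ _
  have h3 := Abp.sum one_mem_lt g fun l => (hg l).2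
  obtain ⟨w, l, h4, h5, h6, h7⟩ := (Abp.sum one_mem_lt (fun i => c i • (∑ l, g l).map (sc (v i)))
    fun i => (h3.map _ (sc_mem _)).smul _).trace one_mem_lt
  have h8 : l.prod.trace = homogeneousComponent d ((∑ l, g l) () ()) := by
    rw [h7, hc _ h2, Matrix.sum_apply]; rfl
  have h9 : 0 < 2 ^ (j + 1) := by positivity
  have h10 : 2 ^ (j + 1) = 2 ^ j * 2 := pow_succ 2 j
  refine ⟨w, l, h4.trans ?_, by omega, fun M hM a b => deg_le_one _ (h6 M hM a b),
    h8 ▸ homogeneousComponent_isHomogeneous _ _, fun f hf => ?_⟩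
  · have e1 : 216 ^ j ≤ (2 * d + 2) ^ 8 :=
      calc 216 ^ j ≤ (2 ^ 8) ^ j := by gcongr; norm_num
        _ = (2 ^ j) ^ 8 := by rw [← pow_mul, ← pow_mul, mul_comm]
        _ ≤ _ := by gcongr; omega
    have e2 : 2 ^ j + 1 ≤ 2 * d + 2 := by omega
    calc _ = 6 * k * (216 ^ j * (2 ^ j + 1)) * (N + 3) := by simp; ring
      _ ≤ 6 * k * ((2 * d + 2) ^ 8 * (2 * d + 2)) * (N + 3) := by gcongr
      _ = _ := by ring
  · rw [h8]
    refine (Nat.mul_le_mul_left k (hmax f hf)).trans ?_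
    simp only [LinearMap.comp_apply, entryLinearMap_apply, of_apply,
      homogeneousComponent_eq_self hf₀] at h1
    exact h1

theorem main2 (K : Type) [Field K] [CharZero K] (N d m k : ℕ) (ι A B : Type) [Fintype ι]
    [Fintype A] [Fintype B] (P : ι → Matrix A B (MvPolynomial (Fin N →₀ ℕ) K))
    (hP : ∀ i a b, (P i a b).totalDegree ≤ m) :
    ∃ (w : ℕ) (l : List (Matrix (Fin w) (Fin w) (MvPolynomial (Fin N) K))),
      w ≤ 8 * (k + 1) * 48 ^ ((2 * k + 1) * m + 1) * (2 * d + 1) ^ 9 * (N + 3) ∧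
      l.length ≤ 4 * d + 2 ∧ (∀ M ∈ l, ∀ a b, (M a b).totalDegree ≤ 1) ∧
      l.prod.trace.IsHomogeneous d ∧
      ∀ i, ∀ f : MvPolynomial (Fin N) K, f.IsHomogeneous d →
        k * ((P i).map (eval fun μ => coeff μ f)).rank ≤
          (k + 1) * ((P i).map (eval fun μ => coeff μ l.prod.trace)).rank := by
  classical
  obtain ⟨j, hj, hj'⟩ : ∃ j, d ≤ 2 ^ j ∧ 2 ^ j ≤ 2 * d + 1 := by
    rcases Nat.eq_zero_or_pos d with rfl | hd
    · exact ⟨0, by simp⟩
    · have h1 := Nat.pow_log_le_self 2 hd.ne'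
      exact ⟨_, (Nat.lt_pow_succ_log_self one_lt_two d).le, by rw [pow_succ]; omega⟩
  have h10 : 2 ^ (j + 1) = 2 ^ j * 2 := pow_succ 2 j
  have h11 : 0 < 2 ^ j := by positivity
  let c : MvPolynomial (Fin N) K →ₗ[K] (Fin N →₀ ℕ) → K := LinearMap.pi fun μ => lcoeff K μ
  have key : ∀ i, ∃ F : Matrix Unit Unit (MvPolynomial (Fin N) K),
      Abp (Submodule.span K (Set.range (lt K N))) (2 ^ (j + 1) - 1)
        (2 * (k + 1) * 48 ^ ((2 * k + 1) * m + 1) *
          (2 * 216 ^ j * (1 + Fintype.card (Option (Fin N)) + 1))) F ∧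
      ∀ f : MvPolynomial (Fin N) K, f.IsHomogeneous d → k * (pv c (P i) f).rank ≤
        (k + 1) * (pv c (P i) (homogeneousComponent d (F () ()))).rank := fun i => by
    obtain ⟨f₀, hf₀, hmax⟩ := exists_max {f : MvPolynomial (Fin N) K | f.IsHomogeneous d}
      (fun f => (pv c (P i) f).rank) _ (fun a _ => rank_le_card_width _)
      (isHomogeneous_zero _ _ d)
    obtain ⟨g, ⟨F, h1, rfl⟩, h3⟩ := lift c (homogeneousSubmodule (Fin N) K d)
      (fun w => {g | ∃ F : Matrix Unit Unit (MvPolynomial (Fin N) K),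
        Abp (Submodule.span K (Set.range (lt K N))) (2 ^ (j + 1) - 1) w F ∧
          g = homogeneousComponent d (F () ())}) _
      (fun w => ⟨0, Abp.zero one_mem_lt, by simp⟩)
      (fun w x ⟨F, h1, h2⟩ a => ⟨a • F, h1.smul a, by simp [h2]⟩)
      (fun w w' x ⟨F, h1, h2⟩ y ⟨F', h1', h2'⟩ => ⟨F + F', h1.add h1', by simp [h2, h2']⟩)
      (fun L f hf => by
        obtain ⟨G, ⟨-, h3⟩, h1⟩ := recursion (lt K N) one_mem_lt j 1 Unit Unit (by simp) (by simp)
          (of fun _ _ => f) (fun _ _ => hom_mem hj hf)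
          (L ∘ₗ homogeneousComponent d ∘ₗ entryLinearMap K _ () ())
        simp only [LinearMap.comp_apply, entryLinearMap_apply, of_apply,
          homogeneousComponent_eq_self hf] at h1
        exact ⟨_, ⟨G, h3, rfl⟩, h1⟩)
      (fun w x ⟨F, _, h2⟩ => h2 ▸ homogeneousComponent_isHomogeneous _ _) (P i) m k (hP i) hf₀
    exact ⟨F, h1, fun f hf => (Nat.mul_le_mul_left k (hmax f hf)).trans h3⟩
  choose F hF hF' using key
  obtain ⟨G, hG, hG'⟩ := family one_mem_lt (c ∘ₗ homogeneousComponent d) univ P F hF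
  obtain ⟨v, a, hc⟩ := interp (K := K) (N := N) (show d ≤ 2 ^ (j + 1) - 1 by omega)
  obtain ⟨w, l, h4, h5, h6, h7⟩ := (Abp.sum one_mem_lt (fun i => a i • G.map (sc (v i)))
    fun i => (hG.map _ (sc_mem _)).smul _).trace one_mem_lt
  have h8 : l.prod.trace = homogeneousComponent d (G () ()) := by
    rw [h7, hc _ (hG.mem _ _), Matrix.sum_apply]; rfl
  refine ⟨w, l, h4.trans ?_, by omega, fun M hM a b => deg_le_one _ (h6 M hM a b),
    h8 ▸ homogeneousComponent_isHomogeneous _ _, fun i f hf => ?_⟩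
  · have e1 : 216 ^ j ≤ (2 * d + 1) ^ 8 :=
      calc 216 ^ j ≤ (2 ^ 8) ^ j := by gcongr; norm_num
        _ = (2 ^ j) ^ 8 := by rw [← pow_mul, ← pow_mul, mul_comm]
        _ ≤ _ := by gcongr
    rw [show 2 ^ (j + 1) - 1 + 1 = 2 ^ j * 2 by omega]
    calc _ = 8 * (k + 1) * 48 ^ ((2 * k + 1) * m + 1) * (216 ^ j * 2 ^ j) * (N + 3) := by
          simp; ring
      _ ≤ 8 * (k + 1) * 48 ^ ((2 * k + 1) * m + 1) * ((2 * d + 1) ^ 8 * (2 * d + 1)) * (N + 3) := by
          gcongr
      _ = _ := by ring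
  · rw [h8]
    exact (hF' i f hf).trans (Nat.mul_le_mul_left _ (hG' i (mem_univ i)))

end Pool.Agent.Lib.MP_8b1d3b_lc.Barrier
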