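import Pool.Agent.Lib.MP_8b1d3b_lc.Barrier.Lin

/-! One parameter families of matrices and their Schur complements. -/

namespace Pool.Agent.Lib.MP_8b1d3b_lc.Barrier

open Matrix Polynomial

variable {K : Type} [Field K] {A B ι : Type} [Fintype A] [Fintype B] [Fintype ι]
  [DecidableEq A] [DecidableEq B] [DecidableEq ι]

/-- The Schur complement, multiplied by the pivot determinant. -/
def sharp {T : Type} [CommRing T] (F : Matrix A B T) (Z₁ : Matrix B ι T) (Z₂ : Matrix ι A T) :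
    Matrix A B T :=
  (Z₂ * F * Z₁).det • F - F * Z₁ * (Z₂ * F * Z₁).adjugate * Z₂ * F

omit [DecidableEq A] [DecidableEq B] in
theorem sharp_map {T T' : Type} [CommRing T] [CommRing T'] (φ : T →+* T') (F : Matrix A B T)
    (Z₁ : Matrix B ι T) (Z₂ : Matrix ι A T) :
    (sharp F Z₁ Z₂).map φ = sharp (F.map φ) (Z₁.map φ) (Z₂.map φ) := by
  have h1 : (Z₂ * F * Z₁).adjugate.map φ = ((Z₂ * F * Z₁).map φ).adjugate := φ.map_adjugate _
  have h2 : φ (Z₂ * F * Z₁).det = ((Z₂ * F * Z₁).map φ).det := φ.map_det _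
  have h3 : ((Z₂ * F * Z₁).det • F).map φ = φ (Z₂ * F * Z₁).det • F.map φ := by ext; simp
  rw [sharp, sharp, Matrix.map_sub _ (map_sub φ), h3, h2]
  simp only [Matrix.map_mul, h1]

omit [DecidableEq A] [DecidableEq B] in
theorem det_sharp {T κ : Type} [CommRing T] [Fintype κ] [DecidableEq κ] (F : Matrix A B T)
    (Z₁ : Matrix B ι T) (Z₂ : Matrix ι A T) (Y₁ : Matrix B κ T) (Y₂ : Matrix κ A T) :
    (fromRows Z₂ Y₂ * F * fromCols Z₁ Y₁).det * (Z₂ * F * Z₁).det ^ Fintype.card κ =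
      (Z₂ * F * Z₁).det * (Y₂ * sharp F Z₁ Z₂ * Y₁).det := by
  have h : fromRows Z₂ Y₂ * F * fromCols Z₁ Y₁ *
      fromBlocks 1 (-((Z₂ * F * Z₁).adjugate * (Z₂ * F * Y₁))) 0 ((Z₂ * F * Z₁).det • 1) =
      fromBlocks (Z₂ * F * Z₁) 0 (Y₂ * F * Z₁) (Y₂ * sharp F Z₁ Z₂ * Y₁) := by
    rw [fromRows_mul, fromRows_mul_fromCols, fromBlocks_multiply]
    congr 1
    · simp
    · rw [Matrix.mul_neg, ← Matrix.mul_assoc, mul_adjugate]; simp
    · simp
    · simp only [sharp, Matrix.mul_neg, Matrix.mul_sub, Matrix.sub_mul, Matrix.mul_smul,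
        Matrix.smul_mul, Matrix.mul_one, Matrix.mul_assoc]
      abel
  have h2 := congrArg Matrix.det h
  rwa [det_mul, det_fromBlocks_zero₂₁, det_fromBlocks_zero₁₂, det_one, one_mul, det_smul, det_one,
    mul_one] at h2

omit [DecidableEq A] [DecidableEq B] in
theorem rank_le_sharp (M : Matrix A B K) (Z₁ : Matrix B ι K) (Z₂ : Matrix ι A K)
    (h : (Z₂ * M * Z₁).det ≠ 0) : M.rank ≤ Fintype.card ι + (sharp M Z₁ Z₂).rank := by
  have h1 : (Z₂ * M * Z₁).det • M = M * Z₁ * ((Z₂ * M * Z₁).adjugate * Z₂ * M) + sharp M Z₁ Z₂ := by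
    simp only [sharp, Matrix.mul_assoc]; abel
  rw [← rank_smul_of_mem_nonZeroDivisors M (mem_nonZeroDivisors_of_ne_zero h), h1]
  exact (rk_add _ _).trans (Nat.add_le_add_right ((rank_mul_le_left _ _).trans
    (rank_le_card_width _)) _)

theorem sharp_le_rank (M : Matrix A B K) (Z₁ : Matrix B ι K) (Z₂ : Matrix ι A K)
    (h : (Z₂ * M * Z₁).det ≠ 0) : Fintype.card ι + (sharp M Z₁ Z₂).rank ≤ M.rank := by
  obtain ⟨Y₁, Y₂, h1, -⟩ := exists_gi (sharp M Z₁ Z₂)
  have h2 := det_sharp M Z₁ Z₂ Y₁ Y₂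
  rw [h1, det_one, mul_one] at h2
  simpa using card_le_rank M (fromRows Z₂ Y₂) (fromCols Z₁ Y₁) fun e => h (by rw [← h2, e, zero_mul])

/-- The value at `s`. -/
noncomputable def ev (s : K) (F : Matrix A B K[X]) : Matrix A B K := F.map (evalRingHom s)

/-- The coefficient of degree `w`. -/
noncomputable def cf (w : ℕ) (F : Matrix A B K[X]) : Matrix A B K := F.map fun p => p.coeff w

/-- A constant family. -/
noncomputable def cst (M : Matrix A B K) : Matrix A B K[X] := M.map (C : K →+* K[X])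

omit [Fintype A] [Fintype B] [DecidableEq A] [DecidableEq B] in
theorem ev_cst (s : K) (M : Matrix A B K) : ev s (cst M) = M := by ext; simp [ev, cst]

omit [Fintype A] [Fintype ι] [DecidableEq A] [DecidableEq B] [DecidableEq ι] in
theorem ev_mul (s : K) (F : Matrix A B K[X]) (G : Matrix B ι K[X]) :
    ev s (F * G) = ev s F * ev s G := Matrix.map_mul

theorem ev_det (s : K) (F : Matrix ι ι K[X]) : F.det.eval s = (ev s F).det :=
  (evalRingHom s).map_det F

omit [DecidableEq A] [DecidableEq B] in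
theorem ev_sharp (s : K) (F : Matrix A B K[X]) (Z₁ : Matrix B ι K) (Z₂ : Matrix ι A K) :
    ev s (sharp F (cst Z₁) (cst Z₂)) = sharp (ev s F) Z₁ Z₂ := by
  rw [ev, sharp_map]
  exact congrArg₂ _ (ev_cst s Z₁) (ev_cst s Z₂)

omit [Fintype A] [Fintype ι] [DecidableEq A] [DecidableEq B] [DecidableEq ι] in
theorem cf_mul (w : ℕ) (F : Matrix A B K[X]) (M : Matrix B ι K) :
    cf w (F * cst M) = cf w F * M := by
  ext; simp [cf, cst, mul_apply]

omit [Fintype B] [Fintype ι] [DecidableEq A] [DecidableEq B] [DecidableEq ι] in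
theorem mul_cf (w : ℕ) (F : Matrix A B K[X]) (M : Matrix ι A K) :
    cf w (cst M * F) = M * cf w F := by
  ext; simp [cf, cst, mul_apply]

theorem semiP [Infinite K] (F : Matrix A B K[X]) (s₀ : K) {q : K[X]} (hq : q ≠ 0) :
    ∃ s, q.eval s ≠ 0 ∧ (ev s₀ F).rank ≤ (ev s F).rank := by
  obtain ⟨Z₁, Z₂, h1, -⟩ := exists_gi (ev s₀ F)
  have hN : ∀ s, (cst Z₂ * F * cst Z₁).det.eval s = (Z₂ * ev s F * Z₁).det := fun s => by
    rw [ev_det, ev_mul, ev_mul, ev_cst, ev_cst]
  have h2 : (cst Z₂ * F * cst Z₁).det ≠ 0 := fun e => by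
    have := hN s₀
    simp [e, h1] at this
  by_contra hc
  push Not at hc
  refine mul_ne_zero hq h2 (Polynomial.funext fun s => ?_)
  by_contra hs
  simp only [eval_mul, eval_zero, mul_eq_zero, not_or] at hs
  have := card_le_rank _ _ _ (hN s ▸ hs.2)
  rw [Fintype.card_fin] at this
  exact absurd this (not_le.2 (hc s hs.1))

theorem rank_le_right (P : Matrix B B K) (M : Matrix A B K) :
    M.rank ≤ (M * P).rank + (1 - P).rank := by
  simpa using rank_le_cmp P 1 M

theorem cf_rank [Infinite K] (ρ w : ℕ) : ∀ (F : Matrix A B K[X]) (q : K[X]), q ≠ 0 →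
    (∀ s, q.eval s ≠ 0 → (ev s F).rank ≤ ρ) → (cf w F).rank ≤ (w + 1) * ρ := by
  have h0 : ∀ (F : Matrix A B K[X]) (q : K[X]), q ≠ 0 →
      (∀ s, q.eval s ≠ 0 → (ev s F).rank ≤ ρ) → (cf 0 F).rank ≤ ρ := fun F q hq h => by
    obtain ⟨s, hs, h1⟩ := semiP F 0 hq
    rw [show cf 0 F = ev 0 F by ext; simp [cf, ev, coeff_zero_eq_eval_zero]]
    exact h1.trans (h s hs)
  induction w with
  | zero => simpa using h0
  | succ w ih =>
    intro F q hq h
    obtain ⟨_, _, P, -, -, hP, -, h1, -⟩ := core (cf 0 F)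
    have h2 := h0 F q hq h
    have h3 := ih ((F * cst P).map divX) (X * q) (mul_ne_zero X_ne_zero hq) fun s hs => by
      rw [eval_mul, eval_X, mul_ne_zero_iff] at hs
      have e : s • ev s ((F * cst P).map divX) = ev s F * P := by
        refine Eq.trans ?_ ((ev_mul s F (cst P)).trans (by rw [ev_cst]))
        ext a b
        have e1 : ((F * cst P) a b).coeff 0 = 0 := congrFun₂ ((cf_mul 0 F P).trans hP) a b
        have e2 := congrArg (eval s) (X_mul_divX_add ((F * cst P) a b))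
        simpa [ev, e1] using e2
      rw [← rank_smul_of_mem_nonZeroDivisors _ (mem_nonZeroDivisors_of_ne_zero hs.1), e]
      exact (rank_mul_le_left _ _).trans (h s hs.2)
    rw [show cf w ((F * cst P).map divX) = cf (w + 1) F * P by
      rw [← cf_mul]; ext; simp [cf, coeff_divX]] at h3
    have h4 := rank_le_right P (cf (w + 1) F)
    nlinarith

theorem gain [Infinite K] (F : Matrix A B K[X]) (Z₁ : Matrix B ι K) (Z₂ : Matrix ι A K)
    (h : Z₂ * ev 0 F * Z₁ = 1) : ∃ (s : K) (ρ : ℕ), (ev s F).rank = Fintype.card ι + ρ ∧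
      ∀ w, (cf w (sharp F (cst Z₁) (cst Z₂))).rank ≤ (w + 1) * ρ := by
  obtain ⟨s, -, hs⟩ := exists_max Set.univ (fun s => (ev s F).rank) _
    (fun _ _ => rank_le_card_width _) (Set.mem_univ 0)
  have hN : ∀ s, (cst Z₂ * F * cst Z₁).det.eval s = (Z₂ * ev s F * Z₁).det := fun s => by
    rw [ev_det, ev_mul, ev_mul, ev_cst, ev_cst]
  obtain ⟨ρ, hρ⟩ := Nat.exists_eq_add_of_le
    ((card_le_rank _ Z₂ Z₁ (by simp [h])).trans (hs 0 trivial))
  refine ⟨s, ρ, hρ, fun w => cf_rank ρ w _ (cst Z₂ * F * cst Z₁).det (fun e => ?_) fun t ht => ?_⟩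
  · have := hN 0
    simp [e, h] at this
  · have h1 := sharp_le_rank _ _ _ (hN t ▸ ht)
    have h2 := hs t trivial
    rw [ev_sharp]
    omega

theorem kill_right [Infinite K] (E : ℕ → Matrix A B K) (δ j : ℕ) (h : ∀ w < j, (E w).rank ≤ δ) :
    ∃ P : Matrix B B K, (1 - P).rank ≤ j * δ ∧ ∀ w < j, E w * P = 0 := by
  induction j with
  | zero => exact ⟨1, by simp, by simp⟩
  | succ j ih =>
    obtain ⟨P, h1, h2⟩ := ih fun w hw => h w (by omega)
    obtain ⟨_, _, P', -, -, h3, -, h4, -⟩ := core (E j * P)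
    refine ⟨P * P', ?_, fun w hw => ?_⟩
    · have := cork_mul P P'
      have := (rank_mul_le_left (E j) P).trans (h j (by omega))
      nlinarith
    · rw [← Matrix.mul_assoc]
      rcases Nat.lt_succ_iff_lt_or_eq.1 hw with hw | rfl
      exacts [by rw [h2 w hw, Matrix.zero_mul], h3]

theorem natDegree_det_le (E : Matrix ι ι K[X]) (m : ℕ) (h : ∀ a b, (E a b).natDegree ≤ m) :
    E.det.natDegree ≤ m * Fintype.card ι := by
  rw [det_apply']
  refine natDegree_sum_le_of_forall_le _ _ fun σ _ => natDegree_mul_le.trans ?_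
  rw [natDegree_intCast, zero_add]
  refine (natDegree_prod_le _ _).trans ((Finset.sum_le_card_nsmul _ _ m fun i _ => h _ _).trans ?_)
  simp [mul_comm]

theorem deficit [Infinite K] (F : Matrix A B K[X]) (m : ℕ) (hm : ∀ a b, (F a b).natDegree ≤ m)
    (Z₁ : Matrix B ι K) (Z₂ : Matrix ι A K) (h : Z₂ * ev 0 F * Z₁ = 1) (δ j : ℕ)
    (hδ : ∀ w < j, (cf w (sharp F (cst Z₁) (cst Z₂))).rank ≤ δ) (s₀ : K) :
    ∃ ρ, (ev s₀ F).rank ≤ Fintype.card ι + ρ + j * δ ∧ j * ρ ≤ m * (Fintype.card ι + ρ) := by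
  obtain ⟨P, h1, h2⟩ := kill_right _ δ j hδ
  set q := (cst Z₂ * F * cst Z₁).det with hq
  set S := sharp F (cst Z₁) (cst Z₂) with hS
  have hN : ∀ s, q.eval s = (Z₂ * ev s F * Z₁).det := fun s => by
    rw [ev_det, ev_mul, ev_mul, ev_cst, ev_cst]
  have hq0 : q.coeff 0 = 1 := by rw [coeff_zero_eq_eval_zero, hN, h, det_one]
  have hq1 : q ≠ 0 := fun e => by simp [e] at hq0
  obtain ⟨s, hs, h3⟩ := semiP F s₀ hq1
  have h4 := rank_le_sharp _ _ _ (hN s ▸ hs)
  rw [← ev_sharp, ← hS] at h4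
  have h5 := rank_le_right P (ev s S)
  obtain ⟨Y₁, Y₂, h6, -⟩ := exists_gi (ev s S * P)
  refine ⟨(ev s S * P).rank, by omega, ?_⟩
  generalize (ev s S * P).rank = ρ at Y₁ Y₂ h6
  have h7 := det_sharp F (cst Z₁) (cst Z₂) (cst (P * Y₁)) (cst Y₂)
  rw [← hq, ← hS] at h7
  have h8 : ∀ a b, X ^ j ∣ (cst Y₂ * S * cst (P * Y₁)) a b := fun a b =>
    X_pow_dvd_iff.2 fun w hw => by
      have : cf w (cst Y₂ * S * cst (P * Y₁)) = 0 := by
        rw [cf_mul, mul_cf, Matrix.mul_assoc, ← Matrix.mul_assoc _ P, h2 w hw]; simp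
      exact congrFun₂ this a b
  choose N hN' using h8
  have h9 : cst Y₂ * S * cst (P * Y₁) = (X ^ j : K[X]) • of N := by ext1 a b; simp [hN']
  have h10 : (cst Y₂ * S * cst (P * Y₁)).det ≠ 0 := fun e => by
    have := ev_det s (cst Y₂ * S * cst (P * Y₁))
    rw [e, ev_mul, ev_mul, ev_cst, ev_cst, ← Matrix.mul_assoc, Matrix.mul_assoc Y₂, h6] at this
    simp at this
  have h11 : IsCoprime (X : K[X]) q :=
    ⟨-divX q, 1, by have := X_mul_divX_add q; rw [hq0, C_1] at this; linear_combination -this⟩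
  have h12 : (X ^ j) ^ ρ ∣ (fromRows (cst Z₂) (cst Y₂) * F * fromCols (cst Z₁) (cst (P * Y₁))).det := by
    refine (h11.pow_left.pow (m := ρ) (n := Fintype.card (Fin ρ))).dvd_of_dvd_mul_right ?_
    rw [h7, h9, det_smul, Fintype.card_fin]
    exact Dvd.dvd.mul_left (dvd_mul_right _ _) _
  have h13 := natDegree_le_of_dvd h12 fun e => mul_ne_zero hq1 h10 (by rw [← h7, e, zero_mul])
  rw [← pow_mul, natDegree_X_pow] at h13
  refine h13.trans ((natDegree_det_le _ m fun a b => ?_).trans (by simp))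
  rw [cst, cst, cst, cst, ← fromRows_map, ← fromCols_map]
  simp only [mul_apply, map_apply]
  refine natDegree_sum_le_of_forall_le _ _ fun x _ => (natDegree_mul_C_le _ _).trans ?_
  exact natDegree_sum_le_of_forall_le _ _ fun y _ => (natDegree_C_mul_le _ _).trans (hm _ _)

end Pool.Agent.Lib.MP_8b1d3b_lc.Barrier
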