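import Pool.Agent.Lib.MP_8b1d3b_lc.Barrier.Main

namespace Pool.Agent.Lib.MP_8b1d3b_lc.Barrier.RankBarrier

open MvPolynomial

/-- Barrier for rank methods.  `P i` are finitely many matrices whose entries are polynomials of
degree at most `m` in the coefficients of a polynomial `f` in `N` variables.  A single form of
degree `d` with a branching program of polynomial size has, for every `i`, rank within the factor
`1 + 1 / k` of the maximum over all forms of degree `d`. -/
theorem result (K : Type) [Field K] [CharZero K] (N d m k : ℕ) (ι A B : Type) [Fintype ι]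
    [Fintype A] [Fintype B] (P : ι → Matrix A B (MvPolynomial (Fin N →₀ ℕ) K))
    (hP : ∀ i a b, (P i a b).totalDegree ≤ m) :
    ∃ (w : ℕ) (l : List (Matrix (Fin w) (Fin w) (MvPolynomial (Fin N) K))),
      w ≤ 8 * (k + 1) * 48 ^ ((2 * k + 1) * m + 1) * (2 * d + 1) ^ 9 * (N + 3) ∧
      l.length ≤ 4 * d + 2 ∧ (∀ M ∈ l, ∀ a b, (M a b).totalDegree ≤ 1) ∧
      l.prod.trace.IsHomogeneous d ∧
      ∀ i, ∀ f : MvPolynomial (Fin N) K, f.IsHomogeneous d →
        k * ((P i).map (eval fun μ => coeff μ f)).rank ≤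
          (k + 1) * ((P i).map (eval fun μ => coeff μ l.prod.trace)).rank :=
  Pool.Agent.Lib.MP_8b1d3b_lc.Barrier.main2 K N d m k ι A B P hP

end Pool.Agent.Lib.MP_8b1d3b_lc.Barrier.RankBarrier
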