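import Pool.Agent.Lib.MP_8b1d3b_lc.Barrier.Lin

/-! A rank method loses only a linear factor on products of two polynomials of half degree. -/

namespace Pool.Agent.Lib.MP_8b1d3b_lc.Barrier

open Matrix Finset

variable {K : Type} [Field K] {A B : Type} [Fintype A] [Fintype B] [DecidableEq A] [DecidableEq B]

section stack

variable {S ι : Type} [Fintype S] [DecidableEq S] [Fintype ι]

/-- The matrices `f s` side by side. -/
def stackL (f : S → Matrix A ι K) : Matrix A (S × ι) K := of fun a p => f p.1 a p.2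

/-- The matrices `f s` one above the other. -/
def stackR (f : S → Matrix ι B K) : Matrix (S × ι) B K := of fun p b => f p.1 p.2 b

omit [Fintype A] [Fintype B] [DecidableEq A] [DecidableEq B] in
theorem stackL_mul (f : S → Matrix A ι K) (s : S) (Y : Matrix ι B K) :
    stackL f * stackR (Pi.single s Y) = f s * Y := by
  ext a b
  simp only [stackL, stackR, mul_apply, of_apply, Fintype.sum_prod_type]
  rw [sum_eq_single s (fun t _ ht => by simp [ht]) (by simp)]
  simp

omit [Fintype A] [Fintype B] [DecidableEq A] [DecidableEq B] in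
theorem mul_stackR (f : S → Matrix ι B K) (s : S) (X : Matrix A ι K) :
    stackL (Pi.single s X) * stackR f = X * f s := by
  ext a b
  simp only [stackL, stackR, mul_apply, of_apply, Fintype.sum_prod_type]
  rw [sum_eq_single s (fun t _ ht => by simp [ht]) (by simp)]
  simp

end stack

theorem kill_half [Infinite K] {I J W ι : Type} [Fintype I] [Fintype J] [Fintype ι]
    (α : I → W → Matrix A ι K) (β : J → W → Matrix ι B K)
    (h : ∀ i j m m', α i m * β j m' = α i m' * β j m) :
    ∃ (P : Matrix B B K) (Q : Matrix A A K),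
      (1 - P).rank + (1 - Q).rank ≤ (Fintype.card I + Fintype.card J) * Fintype.card ι ∧
      ∀ i j m m', Q * (α i m * β j m') * P = 0 := by
  classical
  obtain ⟨P, Q, h1, h2⟩ := kill_two (fun m : W => stackL fun i => α i m)
    (fun d : I × J × W => stackR (Pi.single d.1 (β d.2.1 d.2.2)))
    (fun d : I × J × W => stackL (Pi.single d.2.1 (α d.1 d.2.2)))
    (fun m : W => stackR fun j => β j m) (fun m d => by rw [stackL_mul, mul_stackR, h])
  refine ⟨P, Q, by simpa [add_mul] using h1, fun i j m m' => ?_⟩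
  have := h2 (m, i, j, m')
  simpa only [stackL_mul] using this

theorem swap_all {S M : Type} {e : ℕ} (Φ : (Fin e → S) → (Fin e → S) → M)
    (h : ∀ z z' p, Φ z z' = Φ (Function.update z p (z' p)) (Function.update z' p (z p)))
    (x x' : Fin e → S) : Φ x x' = Φ x' x := by
  have : ∀ T : Finset (Fin e), Φ x x' = Φ (T.piecewise x' x) (T.piecewise x x') := fun T => by
    induction T using Finset.induction_on with
    | empty => simp
    | insert p T hp ih =>
      rw [ih, h _ _ p, piecewise_insert, piecewise_insert, piecewise_eq_of_notMem _ _ _ hp,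
        piecewise_eq_of_notMem _ _ _ hp]
  simpa using this univ

variable {R : Type} [CommRing R] [Algebra K R] {S : Type} [Fintype S] (y : S → R)

/-- The product of the letters of a word. -/
def mon {e : ℕ} (x : Fin e → S) : R := ∏ p, y (x p)

omit [Fintype S] in
theorem pow_eq (e : ℕ) : Submodule.span K (Set.range y) ^ e =
    Submodule.span K (Set.range (mon y (e := e))) := by
  have : Submodule.span K (Set.range y) ^ e = ∏ _p : Fin e, Submodule.span K (Set.range y) := by
    simp
  rw [this, Submodule.prod_span]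
  congr 1
  ext a
  rw [Set.mem_fintype_prod]
  constructor
  · rintro ⟨g, hg, rfl⟩
    choose x hx using hg
    exact ⟨x, by simp [mon, hx]⟩
  · rintro ⟨x, rfl⟩
    exact ⟨fun p => y (x p), fun p => ⟨_, rfl⟩, rfl⟩

omit [Fintype S] in
theorem mon_mem {e : ℕ} (x : Fin e → S) : mon y x ∈ Submodule.span K (Set.range y) ^ e := by
  rw [pow_eq]; exact Submodule.subset_span ⟨x, rfl⟩

omit [Fintype S] in
theorem mon_update {e : ℕ} (z : Fin e → S) (p : Fin e) (c : S) :
    mon y (Function.update z p c) = (∏ q ∈ univ.erase p, y (z q)) * y c := by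
  rw [mon, ← prod_erase_mul _ _ (mem_univ p), Function.update_self]
  congr 1
  exact prod_congr rfl fun q hq => by rw [Function.update_of_ne (ne_of_mem_erase hq)]

/-- The linear map `L` followed by a compression. -/
def cmp {M : Type} [AddCommGroup M] [Module K M] (P : Matrix B B K) (Q : Matrix A A K)
    (L : M →ₗ[K] Matrix A B K) : M →ₗ[K] Matrix A B K :=
  mulRightLinearMap A K P ∘ₗ mulLeftLinearMap B K Q ∘ₗ L

omit [DecidableEq A] [DecidableEq B] in
theorem cmp_apply {M : Type} [AddCommGroup M] [Module K M] (P : Matrix B B K) (Q : Matrix A A K)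
    (L : M →ₗ[K] Matrix A B K) (x : M) : cmp P Q L x = Q * L x * P := rfl

theorem two [Infinite K] {I J : Type} [Fintype I] [Fintype J] (e : ℕ)
    (L : Matrix I J R →ₗ[K] Matrix A B K) (r : ℕ)
    (hr : ∀ (u : I → R) (v : J → R), (∀ i, u i ∈ Submodule.span K (Set.range y) ^ e) →
      (∀ j, v j ∈ Submodule.span K (Set.range y) ^ e) → (L (vecMulVec u v)).rank ≤ r)
    (F : Matrix I J R) (hF : ∀ i j, F i j ∈ Submodule.span K (Set.range y) ^ (e + e)) :
    (L F).rank ≤ 2 * (1 + Fintype.card S + Fintype.card I + Fintype.card J) * r := by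
  classical
  set V := Submodule.span K (Set.range y) ^ e with hV
  obtain ⟨r₀, P₁, Q₁, α, β, γ, δ, h0, h1, h2⟩ := split (Submodule.pi Set.univ fun _ : I => V)
    (Submodule.pi Set.univ fun _ : J => V) ((vecMulVecBilin K K).compr₂ L) r
    fun u hu v hv => hr u v (fun i => hu i trivial) fun j => hv j trivial
  have h3 : ∀ i j, ∀ a ∈ V, ∀ b ∈ V, Q₁ * L (single i j (a * b)) * P₁ =
      α (Pi.single i a) * β (Pi.single j b) + γ (Pi.single j b) * δ (Pi.single i a) :=
    fun i j a ha b hb => by
      rw [← h2 _ (fun i' _ => by rw [Pi.single_apply]; split_ifs; exacts [ha, V.zero_mem]) _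
        (fun i' _ => by rw [Pi.single_apply]; split_ifs; exacts [hb, V.zero_mem])]
      refine congrArg (fun z => Q₁ * L z * P₁) (?_ : _ = vecMulVec (Pi.single i a) (Pi.single j b))
      ext i' j'
      simp only [vecMulVec_apply, single_apply, Pi.single_apply, @eq_comm _ i', @eq_comm _ j']
      by_cases hi : i = i' <;> by_cases hj : j = j' <;> simp [hi, hj]
  -- exchange of one letter
  obtain ⟨P₂, Q₂, h4, h5⟩ := kill_two
    (fun c : I × {a : R // ∀ s, a * y s ∈ V} => stackL fun s => α (Pi.single c.1 (c.2.1 * y s)))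
    (fun d : J × {a : R // ∀ s, a * y s ∈ V} × S × S =>
      stackR (Pi.single d.2.2.1 (β (Pi.single d.1 (d.2.1.1 * y d.2.2.2)))) -
      stackR (Pi.single d.2.2.2 (β (Pi.single d.1 (d.2.1.1 * y d.2.2.1)))))
    (fun d => stackL (Pi.single d.2.2.2 (γ (Pi.single d.1 (d.2.1.1 * y d.2.2.1)))) -
      stackL (Pi.single d.2.2.1 (γ (Pi.single d.1 (d.2.1.1 * y d.2.2.2)))))
    (fun c => stackR fun s => δ (Pi.single c.1 (c.2.1 * y s)))
    (fun ⟨i, a, ha⟩ ⟨j, ⟨b, hb⟩, s, t⟩ => by
      simp only [Matrix.mul_sub, Matrix.sub_mul, stackL_mul, mul_stackR]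
      rw [sub_eq_sub_iff_add_eq_add, add_comm (γ _ * δ _), ← h3 i j _ (ha s) _ (hb t),
        ← h3 i j _ (ha t) _ (hb s), show a * y s * (b * y t) = a * y t * (b * y s) by ring])
  have h6 : ∀ i j (x x' : Fin e → S),
      Q₂ * α (Pi.single i (mon y x)) * (β (Pi.single j (mon y x')) * P₂) =
      Q₂ * α (Pi.single i (mon y x')) * (β (Pi.single j (mon y x)) * P₂) := fun i j =>
    swap_all (fun x x' => Q₂ * α (Pi.single i (mon y x)) * (β (Pi.single j (mon y x')) * P₂))
      fun z z' p => by
        have := h5 ((i, ⟨∏ q ∈ univ.erase p, y (z q), fun s => mon_update y z p s ▸ mon_mem y _⟩),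
          j, ⟨∏ q ∈ univ.erase p, y (z' q), fun s => mon_update y z' p s ▸ mon_mem y _⟩, z p, z' p)
        simp only [Matrix.mul_sub, Matrix.sub_mul, stackL_mul, sub_eq_zero, ← mon_update,
          Function.update_eq_self] at this
        simpa only [Matrix.mul_assoc] using this
  obtain ⟨P₃, Q₃, h7, h8⟩ := kill_half (fun i (x : Fin e → S) => Q₂ * α (Pi.single i (mon y x)))
    (fun j x => β (Pi.single j (mon y x)) * P₂) h6
  have h9 : ∀ i j (x x' : Fin e → S), Q₃ * (Q₂ * (Q₁ * L (single i j (mon y x * mon y x')) * P₁) *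
      P₂) * P₃ = Q₃ * Q₂ * γ (Pi.single j (mon y x')) * (δ (Pi.single i (mon y x)) * P₂ * P₃) :=
    fun i j x x' => by
      have := h8 i j x x'
      rw [h3 i j _ (mon_mem y x) _ (mon_mem y x')]
      simp only [Matrix.mul_add, Matrix.add_mul, Matrix.mul_assoc] at this ⊢
      rw [this, zero_add]
  obtain ⟨P₄, Q₄, h10, h11⟩ := kill_half
    (fun j (x : Fin e → S) => Q₃ * Q₂ * γ (Pi.single j (mon y x)))
    (fun i x => δ (Pi.single i (mon y x)) * P₂ * P₃)
    (fun j i x x' => by rw [← h9, ← h9, mul_comm (mon y x)])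
  obtain ⟨P, Q, h12, h13⟩ : Kill (fun ω : I × J × (Fin e → S) × (Fin e → S) =>
      L (single ω.1 ω.2.1 (mon y ω.2.2.1 * mon y ω.2.2.2))) _ :=
    Kill.comp h1 (Kill.comp h4 (Kill.comp h7 ⟨P₄, Q₄, h10, fun ω => by
      simp only [h9]; exact h11 _ _ _ _⟩))
  have h14 : Q * L F * P = 0 := by
    rw [← cmp_apply, matrix_eq_sum_single F]
    simp only [map_sum]
    refine sum_eq_zero fun i _ => sum_eq_zero fun j _ => ?_
    have h15 : Submodule.span K (Set.range y) ^ (e + e) ≤
        LinearMap.ker (cmp P Q L ∘ₗ singleLinearMap K i j) := by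
      rw [pow_add, pow_eq, Submodule.span_mul_span, Submodule.span_le]
      rintro _ ⟨_, ⟨x, rfl⟩, _, ⟨x', rfl⟩, rfl⟩
      exact h13 (i, j, x, x')
    exact h15 (hF i j)
  have h16 := rank_le_cmp P Q (L F)
  rw [h14, rank_zero, zero_add] at h16
  simp only [Fintype.card_prod, Fintype.card_fin] at h12
  refine (h16.trans h12).trans ?_
  have := Nat.mul_le_mul_left (Fintype.card S + Fintype.card I + Fintype.card J) h0
  nlinarith

end Pool.Agent.Lib.MP_8b1d3b_lc.Barrier
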